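import Pool.Agent.H573R2.PSp.Defs

/-!
# ARI (helper231): Boolean correctness of the arithmetization
-/

namespace Pool.Agent.H573R2.PSp

open Pool.Agent.NPC Pool.Agent.H579R2.Spt Pool.Agent.H656R2.AK Pool.Agent.H623R2.PS

section ARI

variable {F : Type} [CommRing F]

/-- Boolean assignments as lists over `F`. -/
def ari_bm (F : Type) [CommRing F] (u : List Bool) : List F := u.map (fun b => if b = true then 1 else 0)

theorem ari_len (u : List Bool) : (ari_bm F u).length = u.length := by
  unfold ari_bm
  rw [List.length_map]

theorem ari_getD (u : List Bool) (v : ℕ) :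
    (ari_bm F u).getD v 0 = if u.getD v false = true then 1 else 0 := by
  unfold ari_bm
  rw [List.getD_eq_getElem?_getD, List.getD_eq_getElem?_getD, List.getElem?_map]
  cases u[v]? <;> simp

theorem ari_set (u : List Bool) (v : ℕ) (b : Bool) :
    (ari_bm F u).set v (if b = true then 1 else 0) = ari_bm F (u.set v b) := by
  unfold ari_bm
  rw [List.map_set]

theorem ari_set_self (u : List Bool) (v : ℕ) (b : Bool) (h : u.getD v false = b) :
    u.set v b = u := by
  by_cases hv : v < u.length
  · rw [List.getD_eq_getElem u false hv] at h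
    rw [← h]
    exact List.set_getElem_self hv
  · exact List.set_eq_of_length_le (by omega)

theorem ari_lin1 (s : List Op) (u : List Bool) (v : ℕ) :
    evF ((2, v, []) :: s) (ari_bm F u) = evF s (ari_bm F u) := by
  rw [evF, if_pos (by norm_num), combF]
  simp only
  rw [if_neg (by norm_num), if_neg (by norm_num), ari_getD]
  have h0 : (ari_bm F u).set v 0 = ari_bm F (u.set v false) := by
    rw [← ari_set]; simp
  have h1 : (ari_bm F u).set v 1 = ari_bm F (u.set v true) := by
    rw [← ari_set]; simp
  rw [h0, h1]
  cases h : u.getD v false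
  · rw [ari_set_self u v false h]
    simp
  · rw [ari_set_self u v true h]
    simp

theorem ari_linL (s : List Op) (u : List Bool) (vs : List ℕ) :
    evF (vs.map (fun i => ((2, i, []) : Op)) ++ s) (ari_bm F u) = evF s (ari_bm F u) := by
  induction vs with
  | nil => rfl
  | cons v vs ih =>
    rw [List.map_cons, List.cons_append, ari_lin1, ih]

theorem ari_linA (m : ℕ) (s : List Op) (u : List Bool) :
    evF (linA m ++ s) (ari_bm F u) = evF s (ari_bm F u) := ari_linL s u (List.range m)

theorem ari_nl (C : List (Bool × ℕ)) (u : List Bool) (i : ℕ) :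
    nlF C (ari_bm F u) i = if (u.getD i false, i) ∈ C then 0 else 1 := by
  unfold nlF
  rw [ari_getD]
  cases h : u.getD i false
  · simp
  · simp

theorem ari_cl (C : List (Bool × ℕ)) (u : List Bool) (hC : ∀ l ∈ C, l.2 < u.length) :
    clF C (ari_bm F u) = if (C.any fun l => u.getD l.2 false == l.1) = true then 1 else 0 := by
  unfold clF
  rw [ari_len]
  by_cases h : (C.any fun l => u.getD l.2 false == l.1) = true
  · rw [if_pos h]
    rw [List.any_eq_true] at h
    obtain ⟨⟨b, i⟩, hl, hb⟩ := h
    simp only [beq_iff_eq] at hb
    have h0 : (0 : F) ∈ (List.range u.length).map (fun i => nlF C (ari_bm F u) i) := by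
      rw [List.mem_map]
      refine ⟨i, List.mem_range.mpr (hC _ hl), ?_⟩
      rw [ari_nl, hb, if_pos hl]
    rw [List.prod_eq_zero h0, sub_zero]
  · rw [if_neg h]
    have h1 : ((List.range u.length).map (fun i => nlF C (ari_bm F u) i)).prod = 1 := by
      apply List.prod_eq_one
      intro x hx
      rw [List.mem_map] at hx
      obtain ⟨i, hi, rfl⟩ := hx
      rw [ari_nl, if_neg]
      intro hmem
      apply h
      rw [List.any_eq_true]
      exact ⟨_, hmem, by simp⟩
    rw [h1, sub_self]

theorem ari_opsC (m : ℕ) (Cs : List (List (Bool × ℕ))) (u : List Bool)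
    (hC : ∀ c ∈ Cs, ∀ l ∈ c, l.2 < u.length) :
    evF (opsC m Cs) (ari_bm F u) = if evc u Cs = true then 1 else 0 := by
  induction Cs with
  | nil =>
    unfold opsC evc
    simp [evF]
  | cons C Cs ih =>
    have ih' := ih (fun c hc => hC c (List.mem_cons_of_mem _ hc))
    have h1 : opsC m (C :: Cs) = (3, 0, C) :: (linA m ++ opsC m Cs) := by
      unfold opsC
      rw [List.flatMap_cons, List.cons_append]
    rw [h1, evF, if_neg (by norm_num), ari_linA, ih',
      ari_cl C u (hC C (List.mem_cons_self ..))]
    unfold evc
    rw [List.all_cons]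
    cases (C.any fun l => u.getD l.2 false == l.1) <;>
      cases (Cs.all fun c => c.any fun l => u.getD l.2 false == l.1) <;> simp

theorem ari_take_set (u : List Bool) (j : ℕ) (b : Bool) (hj : j < u.length) :
    (u.set j b).take (j + 1) = u.take j ++ [b] := by
  rw [List.take_add_one, List.take_set_of_le (le_refl j), List.getElem?_set_self hj]
  rfl

theorem ari_opsQ (m : ℕ) (Cs : List (List (Bool × ℕ))) (n : ℕ)
    (hC : ∀ c ∈ Cs, ∀ l ∈ c, l.2 < n) (qs : List Bool) :
    ∀ (j : ℕ) (u : List Bool), u.length = n → j + qs.length = n →
    evF (opsQ m (qs.zipIdx j) ++ opsC m Cs) (ari_bm F u) =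
      if evq qs (fun w => evc (u.take j ++ w) Cs) = true then 1 else 0 := by
  induction qs with
  | nil =>
    intro j u hu hj
    have h1 : opsQ m (([] : List Bool).zipIdx j) = [] := rfl
    have h2 : evq [] (fun w => evc (u.take j ++ w) Cs) = evc u Cs := by
      change evc (u.take j ++ []) Cs = evc u Cs
      rw [List.append_nil, List.take_of_length_le (by rw [hu, ← hj]; simp)]
    rw [h1, List.nil_append, ari_opsC m Cs u (by rw [hu]; exact hC), h2]
  | cons q qs ih =>
    intro j u hu hj
    rw [List.length_cons] at hj
    have hju : j < u.length := by omega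
    have h1 : opsQ m ((q :: qs).zipIdx j) ++ opsC m Cs =
        ((if q = true then 0 else 1), j, []) :: (linA m ++ (opsQ m (qs.zipIdx (j + 1)) ++
          opsC m Cs)) := by
      unfold opsQ
      rw [List.zipIdx_cons, List.flatMap_cons, List.cons_append, List.cons_append,
        List.append_assoc]
    have h0 : (ari_bm F u).set j 0 = ari_bm F (u.set j false) := by
      rw [← ari_set]; simp
    have h2 : (ari_bm F u).set j 1 = ari_bm F (u.set j true) := by
      rw [← ari_set]; simp
    have i0 := ih (j + 1) (u.set j false) (by rw [List.length_set, hu]) (by omega)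
    have i1 := ih (j + 1) (u.set j true) (by rw [List.length_set, hu]) (by omega)
    rw [ari_take_set u j _ hju] at i0 i1
    have e0 : (fun w => evc (u.take j ++ [false] ++ w) Cs) =
        (fun w => evc (u.take j ++ (false :: w)) Cs) := by
      funext w
      rw [List.append_assoc]
      rfl
    have e1 : (fun w => evc (u.take j ++ [true] ++ w) Cs) =
        (fun w => evc (u.take j ++ (true :: w)) Cs) := by
      funext w
      rw [List.append_assoc]
      rfl
    rw [e0] at i0
    rw [e1] at i1
    rw [h1, evF, if_pos (by cases q <;> norm_num)]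
    simp only
    rw [h0, h2, ari_linA, ari_linA, i0, i1, evq, combF]
    cases q <;>
      cases evq qs (fun w => evc (u.take j ++ (false :: w)) Cs) <;>
      cases evq qs (fun w => evc (u.take j ++ (true :: w)) Cs) <;> simp

end ARI

theorem evF_opsOf (F : Type) [CommRing F] (f : QF) (hf : QFwf f) :
    evF (F := F) (opsOf f) (List.replicate f.1.length 0) =
      if evq f.1 (fun u => evc u f.2) = true then 1 else 0 := by
  have h1 : List.replicate f.1.length (0 : F) = ari_bm F (List.replicate f.1.length false) := by
    unfold ari_bm
    rw [List.map_replicate]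
    simp
  unfold opsOf
  rw [h1, ari_opsQ f.1.length f.2 f.1.length hf f.1 0 (List.replicate f.1.length false)
    (List.length_replicate ..) (by omega)]
  have h2 : (fun w => evc ((List.replicate f.1.length false).take 0 ++ w) f.2) =
      fun u => evc u f.2 := by
    funext w
    rw [List.take_zero, List.nil_append]
  rw [h2]

end Pool.Agent.H573R2.PSp
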