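import Pool.Agent.H573R2.PSp.P.ORT

/-!
# The list of candidates contains the true polynomial and is short
-/

namespace Pool.Agent.H573R2.PSp

open Pool.Agent.NPC Pool.Agent.H579R2.Spt Pool.Agent.H656R2.AK
open Finset

theorem all4_nodup (P : ℕ) : (all4 P).Nodup := by
  unfold all4
  exact List.nodup_range.product (List.nodup_range.product
    (List.nodup_range.product List.nodup_range))

theorem candG_spec {Φ : Type} [DecidableEq Φ] {row : ℕ × ℕ → List (ℤ × Φ)} {P k : ℕ} {g : Cf}
    {z : Φ → ℤ} {R Z : ℤ} (hg : GoodRow row P (2 ^ k) g z R Z) (hP : P.Prime) (hk : P ≤ 2 ^ k)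
    (hmem : g ∈ all4 P) (n : ℕ) (hn : R * Z < n) (hE : 2 * R * (n * R) * 3 ≤ P) :
    g ∈ candG row P (2 ^ k) n ∧ ((candG row P (2 ^ k) n).length : ℤ) ≤ 2 * R * (n * R) ∧
      (candG row P (2 ^ k) n).Nodup ∧ ∀ g' ∈ candG row P (2 ^ k) n, g' ∈ all4 P := by
  -- the true polynomial is kept
  have hok : ok (sysG row P (2 ^ k) g) n = true := by
    set Ω : Finset Φ := (range P ×ˢ range (2 ^ k)).biUnion (fun t => supp (row t)) with hΩ
    refine ok_of_realizable _ z ?_ R Z hg.hR0 ?_ Ω ?_ ?_ n hn
    · intro r hr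
      obtain ⟨t, ht, rfl⟩ := List.mem_map.1 hr
      rw [ev_sc]
      have ht' := mem_tests.1 ht
      cases hb : labG P t g
      · have := hg.h2 t ht' hb
        simp only [Bool.false_eq_true, if_false]
        omega
      · exact hg.h1 t ht' hb
    · intro r hr
      obtain ⟨t, ht, rfl⟩ := List.mem_map.1 hr
      rw [dot_sc_sc]
      exact hg.hR t (mem_tests.1 ht)
    · intro r hr
      obtain ⟨t, ht, rfl⟩ := List.mem_map.1 hr
      refine supp_sc _ _ _ fun a ha => ?_
      exact Finset.mem_biUnion.2 ⟨t, mem_tests.1 ht, mem_supp ha⟩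
    · refine hg.hZ Ω fun Q hQ => ?_
      obtain ⟨t, ht, hQ2⟩ := Finset.mem_biUnion.1 hQ
      simp only [supp, List.mem_toFinset, List.mem_map] at hQ2
      obtain ⟨a, ha, haQ⟩ := hQ2
      exact ⟨t, ht, a, ha, haQ⟩
  have hnd : (candG row P (2 ^ k) n).Nodup := (all4_nodup P).filter _
  have hall : ∀ g' ∈ candG row P (2 ^ k) n, g' ∈ all4 P ∧ ok (sysG row P (2 ^ k) g') n = true := by
    intro g' hg'
    unfold candG at hg'
    have := List.mem_filter.1 hg'
    exact ⟨this.1, by simpa using this.2⟩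
  refine ⟨?_, ?_, hnd, fun g' hg' => (hall g' hg').1⟩
  · unfold candG
    exact List.mem_filter.2 ⟨hmem, by simpa using hok⟩
  · have hcard : (candG row P (2 ^ k) n).toFinset.card = (candG row P (2 ^ k) n).length :=
      List.toFinset_card_of_nodup hnd
    have hB0 : (0 : ℤ) ≤ n * R := mul_nonneg (Int.natCast_nonneg n) hg.hR0
    have hc := count_le2 (range P ×ˢ range (2 ^ k)) (candG row P (2 ^ k) n).toFinset
      row (fun u => run (sysG row P (2 ^ k) u) n)
      (fun t u => labG P t u) R (n * R) ((2 ^ k * 3 : ℕ) : ℤ) hg.hR0 hB0 (by positivity)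
      (fun t ht => hg.hR t ht) ?_ ?_ ?_ ?_ ?_
    · rw [hcard] at hc
      exact hc
    · intro u hu
      refine run_norm _ R hg.hR0 ?_ n
      intro r hr
      obtain ⟨t, ht, rfl⟩ := List.mem_map.1 hr
      rw [dot_sc_sc]
      exact hg.hR t (mem_tests.1 ht)
    · intro u hu t ht
      have hu' := hall u (List.mem_toFinset.1 hu)
      have h2 := (ok_iff _ _).1 hu'.2 (sc (labG P t u) (row t))
        (List.mem_map.2 ⟨t, mem_tests.2 ht, rfl⟩)
      rw [dot_sc_left] at h2
      cases hp : labG P t u <;> rw [hp] at h2 <;> simp [sgn] at h2 ⊢ <;> omega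
    · intro u hu v hv huv
      exact labG_orth hP hk (hall u (List.mem_toFinset.1 hu)).1
        (hall v (List.mem_toFinset.1 hv)).1 huv
    · rw [Finset.card_product, Finset.card_range, Finset.card_range]
      exact Nat.mul_pos hP.pos (by positivity)
    · rw [Finset.card_product, Finset.card_range, Finset.card_range]
      push_cast
      have h2 : (0 : ℤ) ≤ 2 ^ k := by positivity
      calc 2 * R * (n * R) * (2 ^ k * 3) = 2 ^ k * (2 * R * (n * R) * 3) := by
            ring
        _ ≤ 2 ^ k * P := mul_le_mul_of_nonneg_left hE h2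
        _ = P * 2 ^ k := mul_comm _ _

end Pool.Agent.H573R2.PSp
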