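import Pool.Agent.H573R2.PSp.P.CST

/-!
# The line polynomial has a coefficient vector in `all4`
-/

namespace Pool.Agent.H573R2.PSp

open Pool.Agent.NPC Pool.Agent.H579R2.Spt Pool.Agent.H656R2.AK Pool.Agent.H623R2.PS
open Finset

namespace CFaux

/-- The coefficient vector of a polynomial. -/
def cfOf {P : ℕ} (q : Polynomial (ZMod P)) : Cf :=
  ((q.coeff 0).val, (q.coeff 1).val, (q.coeff 2).val, (q.coeff 3).val)

theorem cfOf_mem {P : ℕ} (hP : 0 < P) (q : Polynomial (ZMod P)) : cfOf q ∈ all4 P := by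
  have : NeZero P := ⟨hP.ne'⟩
  unfold cfOf all4
  rw [List.mem_product, List.mem_product, List.mem_product, List.mem_range, List.mem_range,
    List.mem_range, List.mem_range]
  exact ⟨ZMod.val_lt _, ZMod.val_lt _, ZMod.val_lt _, ZMod.val_lt _⟩

theorem cfOf_cast {P : ℕ} (hP : 0 < P) (q : Polynomial (ZMod P)) (hq : q.natDegree ≤ 3) (t : ℕ) :
    ((evG P (cfOf q) t : ℕ) : ZMod P) = q.eval (t : ZMod P) := by
  have : NeZero P := ⟨hP.ne'⟩
  rw [Polynomial.eval_eq_sum_range' (Nat.lt_succ_of_le hq) (t : ZMod P)]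
  unfold evG cfOf
  rw [ZMod.natCast_mod]
  simp only [Nat.cast_add, Nat.cast_mul, ZMod.natCast_val, ZMod.cast_id', id_eq]
  rw [Finset.sum_range_succ, Finset.sum_range_succ, Finset.sum_range_succ,
    Finset.sum_range_succ, Finset.sum_range_zero]
  ring

end CFaux

theorem exists_cf {P : ℕ} (hP : P.Prime) {m v : ℕ} (s : List Op) (a : List ℕ)
    (h : DegLe (F := ZMod P) m (evF s) v 3) (ha : a.length = m) :
    ∃ g ∈ all4 P, ∀ t < P, evG P g t = evN P s (a.set v t) := by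
  have hp : 0 < P := hP.pos
  obtain ⟨q, hq, hev⟩ := h (CSTaux.cst P a) (by rw [CSTaux.length_cst, ha])
  refine ⟨CFaux.cfOf q, CFaux.cfOf_mem hp q, fun t _ => ?_⟩
  have h1 : ((evG P (CFaux.cfOf q) t : ℕ) : ZMod P) = ((evN P s (a.set v t) : ℕ) : ZMod P) := by
    rw [CFaux.cfOf_cast hp q hq, CSTaux.evN_cast' hp, CSTaux.cst_set, hev]
  have h2 : evG P (CFaux.cfOf q) t < P := Nat.mod_lt _ hp
  have h3 : evN P s (a.set v t) < P := evN_lt hp _ _
  have h4 := (ZMod.natCast_eq_natCast_iff _ _ _).1 h1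
  exact Nat.ModEq.eq_of_lt_of_lt h4 h2 h3

end Pool.Agent.H573R2.PSp
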