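import Pool.Agent.H573R2.PSp.Defs

/-! # Degrees of the functions of the arithmetization (task DEG) -/

namespace Pool.Agent.H573R2.PSp

open Pool.Agent.NPC Pool.Agent.H579R2.Spt Pool.Agent.H656R2.AK

namespace DEG

variable {F : Type} [CommRing F] {m : ℕ}

theorem mono {h : List F → F} {v d e : ℕ} (hd : DegLe m h v d) (hde : d ≤ e) : DegLe m h v e := by
  intro a ha
  obtain ⟨q, hq, hq'⟩ := hd a ha
  exact ⟨q, hq.trans hde, hq'⟩

theorem large {h : List F → F} {v : ℕ} (hv : m ≤ v) (d : ℕ) : DegLe m h v d := by
  intro a ha
  refine ⟨Polynomial.C (h a), by rw [Polynomial.natDegree_C]; exact Nat.zero_le _, fun t => ?_⟩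
  rw [List.set_eq_of_length_le (by omega), Polynomial.eval_C]

theorem one (v d : ℕ) : DegLe (F := F) m (evF []) v d := by
  intro a _
  refine ⟨1, by rw [Polynomial.natDegree_one]; exact Nat.zero_le _, fun t => ?_⟩
  rw [Polynomial.eval_one, evF]

theorem mul {h g : List F → F} {v d e : ℕ} (hh : DegLe m h v d) (hg : DegLe m g v e) :
    DegLe m (fun a => h a * g a) v (d + e) := by
  intro a ha
  obtain ⟨q, hq, hq'⟩ := hh a ha
  obtain ⟨r, hr, hr'⟩ := hg a ha
  refine ⟨q * r, Polynomial.natDegree_mul_le.trans (add_le_add hq hr), fun t => ?_⟩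
  rw [Polynomial.eval_mul, ← hq', ← hr']

/-- the polynomial of the factor `i` -/
noncomputable def nlP (C : List (Bool × ℕ)) (a : List F) (v i : ℕ) : Polynomial F :=
  if i = v then (if (true, i) ∈ C then 1 - Polynomial.X else 1) *
    (if (false, i) ∈ C then Polynomial.X else 1) else Polynomial.C (nlF C a i)

theorem nlP_eval (C : List (Bool × ℕ)) (a : List F) {v : ℕ} (hv : v < a.length) (i : ℕ) (t : F) :
    (nlP C a v i).eval t = nlF C (a.set v t) i := by
  unfold nlP
  by_cases hi : i = v
  · subst hi
    rw [if_pos rfl, nlF]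
    have h1 : (a.set i t).getD i 0 = t := by
      rw [List.getD_eq_getElem?_getD, List.getElem?_set]
      simp [hv]
    rw [h1, Polynomial.eval_mul]
    congr 1
    · split_ifs <;> simp
    · split_ifs <;> simp
  · rw [if_neg hi, Polynomial.eval_C, nlF, nlF]
    have h1 : (a.set v t).getD i 0 = a.getD i 0 := by
      rw [List.getD_eq_getElem?_getD, List.getD_eq_getElem?_getD,
        List.getElem?_set_ne (Ne.symm hi)]
    rw [h1]

theorem nlP_deg (C : List (Bool × ℕ)) (a : List F) (v i : ℕ) :
    (nlP C a v i).natDegree ≤ if i = v then 2 else 0 := by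
  unfold nlP
  split_ifs
  all_goals first
    | (rw [Polynomial.natDegree_C])
    | (refine Polynomial.natDegree_mul_le.trans ?_
       have h1 : (1 - Polynomial.X : Polynomial F).natDegree ≤ 1 :=
         (Polynomial.natDegree_sub_le _ _).trans (by
           rw [Polynomial.natDegree_one]
           exact max_le (Nat.zero_le _) Polynomial.natDegree_X_le)
       have h2 : (Polynomial.X : Polynomial F).natDegree ≤ 1 := Polynomial.natDegree_X_le
       have h3 : (1 : Polynomial F).natDegree ≤ 0 := by rw [Polynomial.natDegree_one]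
       omega)

theorem prod_deg (C : List (Bool × ℕ)) (a : List F) (v n : ℕ) :
    (((List.range n).map (nlP C a v)).prod).natDegree ≤ if v < n then 2 else 0 := by
  induction n with
  | zero => simp
  | succ n ih =>
    rw [List.range_succ, List.map_append, List.prod_append, List.map_singleton,
      List.prod_singleton]
    refine Polynomial.natDegree_mul_le.trans ?_
    have h := nlP_deg C a v n
    rcases lt_trichotomy v n with h1 | h1 | h1
    · rw [if_pos h1] at ih
      rw [if_neg (by omega)] at h
      rw [if_pos (by omega)]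
      omega
    · rw [if_neg (by omega)] at ih
      rw [if_pos (by omega)] at h
      rw [if_pos (by omega)]
      omega
    · rw [if_neg (by omega)] at ih
      rw [if_neg (by omega)] at h
      rw [if_neg (by omega)]
      omega

theorem cl (C : List (Bool × ℕ)) (v : ℕ) : DegLe (F := F) m (clF C) v 2 := by
  by_cases hv : v < m
  · intro a ha
    refine ⟨1 - ((List.range a.length).map (nlP C a v)).prod, ?_, fun t => ?_⟩
    · refine (Polynomial.natDegree_sub_le _ _).trans (max_le ?_ ?_)
      · rw [Polynomial.natDegree_one]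
        exact Nat.zero_le _
      · refine (prod_deg C a v _).trans ?_
        split_ifs <;> omega
    · rw [Polynomial.eval_sub, Polynomial.eval_one, clF, List.length_set]
      congr 1
      rw [Polynomial.eval_list_prod, List.map_map]
      congr 1
      refine List.map_congr_left fun i _ => ?_
      rw [Function.comp_apply, nlP_eval C a (by omega)]
  · exact large (by omega) _

/-- The operator of kind `k < 3` in the variable `u`. -/
def qop (k u : ℕ) (h : List F → F) (a : List F) : F :=
  combF k (a.getD u 0) (h (a.set u 0)) (h (a.set u 1))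

/-- the degree in the variable of the operation -/
theorem qop_self (k u : ℕ) (h : List F → F) : DegLe m (qop k u h) u 1 := by
  by_cases hv : u < m
  · intro a ha
    have h1 : ∀ t : F, (a.set u t).getD u 0 = t := fun t => by
      rw [List.getD_eq_getElem?_getD, List.getElem?_set]
      simp [ha, hv]
    have h2 : ∀ t c : F, (a.set u t).set u c = a.set u c := fun t c => List.set_set _
    by_cases hk0 : k = 0
    · refine ⟨Polynomial.C (h (a.set u 0) * h (a.set u 1)), ?_, fun t => ?_⟩
      · rw [Polynomial.natDegree_C]; omega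
      · simp only [qop, combF, hk0, if_true, h2, Polynomial.eval_C]
    · by_cases hk1 : k = 1
      · refine ⟨Polynomial.C (h (a.set u 0) + h (a.set u 1) - h (a.set u 0) * h (a.set u 1)),
          ?_, fun t => ?_⟩
        · rw [Polynomial.natDegree_C]; omega
        · simp only [qop, combF, hk1, h2, Polynomial.eval_C]
          simp
      · refine ⟨(1 - Polynomial.X) * Polynomial.C (h (a.set u 0)) +
          Polynomial.X * Polynomial.C (h (a.set u 1)), ?_, fun t => ?_⟩
        · refine (Polynomial.natDegree_add_le _ _).trans (max_le ?_ ?_)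
          · refine Polynomial.natDegree_mul_le.trans ?_
            rw [Polynomial.natDegree_C, add_zero]
            refine (Polynomial.natDegree_sub_le _ _).trans (max_le ?_ Polynomial.natDegree_X_le)
            rw [Polynomial.natDegree_one]; omega
          · refine Polynomial.natDegree_mul_le.trans ?_
            rw [Polynomial.natDegree_C, add_zero]
            exact Polynomial.natDegree_X_le
        · simp only [qop, combF, hk0, hk1, if_false, h1, h2, Polynomial.eval_add,
            Polynomial.eval_mul, Polynomial.eval_sub, Polynomial.eval_one, Polynomial.eval_X,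
            Polynomial.eval_C]
  · exact large (by omega) _

theorem getD_set_ne {a : List F} {u v : ℕ} (h : u ≠ v) (t : F) :
    (a.set v t).getD u 0 = a.getD u 0 := by
  rw [List.getD_eq_getElem?_getD, List.getD_eq_getElem?_getD, List.getElem?_set_ne (Ne.symm h)]

/-- the degree in the other variables: at most twice, and unchanged for the linearisation -/
theorem qop_ne {k u v d : ℕ} {h : List F → F} (huv : u ≠ v) (hd : DegLe m h v d) :
    DegLe m (qop k u h) v (if k = 0 ∨ k = 1 then d + d else d) := by
  intro a ha
  obtain ⟨q0, hq0, e0⟩ := hd (a.set u 0) (by rw [List.length_set]; exact ha)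
  obtain ⟨q1, hq1, e1⟩ := hd (a.set u 1) (by rw [List.length_set]; exact ha)
  have hc : ∀ t c : F, (a.set v t).set u c = (a.set u c).set v t := fun t c =>
    List.set_comm _ _ (Ne.symm huv)
  by_cases hk0 : k = 0
  · refine ⟨q0 * q1, ?_, fun t => ?_⟩
    · rw [if_pos (Or.inl hk0)]
      exact Polynomial.natDegree_mul_le.trans (add_le_add hq0 hq1)
    · simp only [qop, combF, hk0, if_true, hc, e0, e1, Polynomial.eval_mul]
  · by_cases hk1 : k = 1
    · refine ⟨q0 + q1 - q0 * q1, ?_, fun t => ?_⟩
      · rw [if_pos (Or.inr hk1)]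
        refine (Polynomial.natDegree_sub_le _ _).trans (max_le ?_ ?_)
        · refine (Polynomial.natDegree_add_le _ _).trans (max_le ?_ ?_) <;> omega
        · exact Polynomial.natDegree_mul_le.trans (add_le_add hq0 hq1)
      · simp only [qop, combF, hk1, hc, e0, e1, Polynomial.eval_mul, Polynomial.eval_sub,
          Polynomial.eval_add]
        simp
    · refine ⟨Polynomial.C (1 - a.getD u 0) * q0 + Polynomial.C (a.getD u 0) * q1, ?_,
        fun t => ?_⟩
      · rw [if_neg (by omega)]
        refine (Polynomial.natDegree_add_le _ _).trans (max_le ?_ ?_)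
        · exact (Polynomial.natDegree_C_mul_le _ _).trans hq0
        · exact (Polynomial.natDegree_C_mul_le _ _).trans hq1
      · simp only [qop, combF, hk0, hk1, if_false, hc, e0, e1, Polynomial.eval_add,
          Polynomial.eval_mul, Polynomial.eval_C, getD_set_ne huv]

theorem evF_cons_lt {k u : ℕ} {C : List (Bool × ℕ)} (s : List Op) (hk : k < 3) :
    (evF ((k, u, C) :: s) : List F → F) = qop k u (evF s) := by
  funext a
  rw [evF, if_pos hk]
  rfl

theorem evF_cons_ge {u : ℕ} {C : List (Bool × ℕ)} (s : List Op) :
    (evF ((3, u, C) :: s) : List F → F) = fun a => clF C a * evF s a := by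
  funext a
  rw [evF, if_neg (by norm_num)]

/-- linearisation in the variables of a list -/
theorem lin_list (s : List Op) (hs : GoodO F m s) (h3 : ∀ v, DegLe (F := F) m (evF s) v 3)
    (l : List ℕ) : GoodO F m (l.map (fun i => ((2, i, []) : Op)) ++ s) ∧
      (∀ v, DegLe (F := F) m (evF (l.map (fun i => ((2, i, []) : Op)) ++ s)) v 3) ∧
      ∀ v ∈ l, DegLe (F := F) m (evF (l.map (fun i => ((2, i, []) : Op)) ++ s)) v 1 := by
  induction l with
  | nil => exact ⟨hs, h3, by simp⟩
  | cons u l ih =>
    obtain ⟨i1, i2, i3⟩ := ih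
    rw [List.map_cons, List.cons_append, evF_cons_lt _ (by norm_num)]
    refine ⟨⟨fun _ => i2 u, i1⟩, fun v => ?_, fun v hv => ?_⟩
    · by_cases huv : u = v
      · subst huv
        exact mono (qop_self _ _ _) (by norm_num)
      · exact mono (qop_ne huv (i2 v)) (by norm_num)
    · by_cases huv : u = v
      · subst huv
        exact qop_self _ _ _
      · rcases List.mem_cons.1 hv with h | h
        · exact absurd h.symm huv
        · exact mono (qop_ne huv (i3 v h)) (by norm_num)

/-- the block of linearisations -/
theorem lin_block (s : List Op) (hs : GoodO F m s) (h3 : ∀ v, DegLe (F := F) m (evF s) v 3) :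
    GoodO F m (linA m ++ s) ∧ ∀ v, DegLe (F := F) m (evF (linA m ++ s)) v 1 := by
  obtain ⟨h1, -, h2⟩ := lin_list s hs h3 (List.range m)
  refine ⟨h1, fun v => ?_⟩
  by_cases hv : v < m
  · exact h2 v (List.mem_range.2 hv)
  · exact large (by omega) _

theorem good_opsC (Cs : List (List (Bool × ℕ))) :
    GoodO F m (opsC m Cs) ∧ ∀ v, DegLe (F := F) m (evF (opsC m Cs)) v 3 := by
  induction Cs with
  | nil => exact ⟨trivial, fun v => one v 3⟩
  | cons C Cs ih =>
    obtain ⟨h1, h2⟩ := lin_block _ ih.1 ih.2
    have e : opsC m (C :: Cs) = (3, 0, C) :: (linA m ++ opsC m Cs) := by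
      rw [opsC, List.flatMap_cons, List.cons_append]
      rfl
    rw [e]
    refine ⟨⟨fun h => absurd h (by norm_num), h1⟩, fun v => ?_⟩
    rw [evF_cons_ge]
    exact mono (mul (cl C v) (h2 v)) (by norm_num)

theorem good_opsQ (l : List (Bool × ℕ)) (s : List Op) (hs : GoodO F m s)
    (h3 : ∀ v, DegLe (F := F) m (evF s) v 3) :
    GoodO F m (opsQ m l ++ s) ∧ ∀ v, DegLe (F := F) m (evF (opsQ m l ++ s)) v 3 := by
  induction l with
  | nil => exact ⟨hs, h3⟩
  | cons q l ih =>
    obtain ⟨h1, h2⟩ := lin_block _ ih.1 ih.2
    have e : opsQ m (q :: l) ++ s =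
        ((if q.1 then 0 else 1), q.2, []) :: (linA m ++ (opsQ m l ++ s)) := by
      rw [opsQ, List.flatMap_cons, List.cons_append, List.cons_append, List.append_assoc]
      rfl
    rw [e]
    have hk : (if q.1 then 0 else 1 : ℕ) < 3 := by split_ifs <;> norm_num
    refine ⟨⟨fun _ => mono (h2 _) (by norm_num), h1⟩, fun v => ?_⟩
    rw [evF_cons_lt _ hk]
    by_cases huv : q.2 = v
    · rw [← huv]
      exact mono (qop_self _ _ _) (by norm_num)
    · refine mono (qop_ne huv (h2 v)) ?_
      split_ifs <;> norm_num

end DEG

theorem goodO_opsOf (F : Type) [CommRing F] (f : QF) : GoodO F f.1.length (opsOf f) :=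
  (DEG.good_opsQ _ _ (DEG.good_opsC _).1 (DEG.good_opsC _).2).1

end Pool.Agent.H573R2.PSp
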