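import Pool.Agent.H573R2.PSp.Defs

/-!
# Task OPS: the operations of a formula are computable in polynomial time (helper989)
-/

namespace Pool.Agent.H573R2.PSp

open Pool.Agent.NPC Pool.Agent.H579R2.Spt Pool.Agent.H656R2.AK Pool.Agent.H623R2.PS
open Finset

section Ops

variable {α : Type} [TEnc α]

theorem linA_poly {m : α → ℕ} (hm : UPoly m) : NPC.Poly (fun x => linA (m x)) := by
  have hr : NPC.Poly (fun x => List.range (m x)) := hm.range
  unfold linA
  exact NPC.Poly.map (F := fun (_ : α) i => ((2, i, []) : Op)) hr (by fun_prop)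

theorem opsOf_poly {f : α → QF} (hf : NPC.Poly f) : NPC.Poly (fun x => opsOf (f x)) := by
  have h1 : NPC.Poly (fun x => (f x).1) := hf.fst
  have hl : NPC.Poly (fun x => linA (f x).1.length) := linA_poly (UPoly.length h1)
  have hQ : NPC.Poly (fun x => opsQ (f x).1.length (f x).1.zipIdx) := by
    unfold opsQ
    refine NPC.Poly.flatMap (l := fun x => (f x).1.zipIdx) (F := fun x (q : Bool × ℕ) =>
      (((if q.1 then 0 else 1), q.2, []) : Op) :: linA (f x).1.length) (by fun_prop) ?_
    have h3 : NPC.Poly (fun y : α × Bool × ℕ => linA (f y.1).1.length) := hl.comp (NPC.Poly.fst NPC.Poly.id)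
    fun_prop
  have hC : NPC.Poly (fun x => opsC (f x).1.length (f x).2) := by
    unfold opsC
    refine NPC.Poly.flatMap (F := fun x C => ((3, 0, C) : Op) :: linA (f x).1.length)
      (by fun_prop) ?_
    have h3 : NPC.Poly (fun y : α × List (Bool × ℕ) => linA (f y.1).1.length) :=
      hl.comp (NPC.Poly.fst NPC.Poly.id)
    fun_prop
  unfold opsOf
  exact hQ.append hC

end Ops

end Pool.Agent.H573R2.PSp
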