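import Pool.Agent.H573R2.PSp.Defs

/-!
# Task POL1: polynomial time of the elementary operations (helper989)
-/

namespace Pool.Agent.H573R2.PSp

open Pool.Agent.NPC Pool.Agent.H579R2.Spt Pool.Agent.H656R2.AK Pool.Agent.H623R2.PS
open Finset

section Pol1

variable {α β Φ : Type} [TEnc α] [TEnc β] [TEnc Φ] [DecidableEq Φ]

theorem set_eq_zipIdx_map (l : List β) (i : ℕ) (x : β) :
    l.set i x = l.zipIdx.map (fun q => if q.2 = i then x else q.1) := by
  apply List.ext_getElem
  · simp
  · intro n h1 h2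
    simp only [List.getElem_set, List.getElem_map, List.getElem_zipIdx, Nat.zero_add]
    by_cases h : i = n
    · rw [if_pos h, if_pos h.symm]
    · rw [if_neg h, if_neg (fun h' => h h'.symm)]

theorem set_poly {l : α → List β} {i : α → ℕ} {x : α → β} (hl : NPC.Poly l) (hi : NPC.Poly i)
    (hx : NPC.Poly x) : NPC.Poly (fun a => (l a).set (i a) (x a)) := by
  refine NPC.Poly.congr (f := fun a => (l a).zipIdx.map (fun q => if q.2 = i a then x a else q.1))
    ?_ (fun a => (set_eq_zipIdx_map (l a) (i a) (x a)).symm)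
  fun_prop

theorem evG_poly {p t : α → ℕ} {g : α → Cf} (hp : NPC.Poly p) (hg : NPC.Poly g)
    (ht : NPC.Poly t) : NPC.Poly (fun a => evG (p a) (g a) (t a)) := by
  unfold evG
  fun_prop

theorem combN_poly {p k x y0 y1 : α → ℕ} (hp : NPC.Poly p) (hk : NPC.Poly k) (hx : NPC.Poly x)
    (h0 : NPC.Poly y0) (h1 : NPC.Poly y1) :
    NPC.Poly (fun a => combN (p a) (k a) (x a) (y0 a) (y1 a)) := by
  unfold combN
  fun_prop

theorem nlN_poly {p i : α → ℕ} {C : α → List (Bool × ℕ)} {a : α → List ℕ} (hp : NPC.Poly p)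
    (hC : NPC.Poly C) (ha : NPC.Poly a) (hi : NPC.Poly i) :
    NPC.Poly (fun x => nlN (p x) (C x) (a x) (i x)) := by
  unfold nlN
  fun_prop

theorem clN_poly {p : α → ℕ} {C : α → List (Bool × ℕ)} {a : α → List ℕ} (hp : NPC.Poly p)
    (hp0 : ∀ x, 0 < p x) (hC : NPC.Poly C) (ha : NPC.Poly a) :
    NPC.Poly (fun x => clN (p x) (C x) (a x)) := by
  have hr : NPC.Poly (fun x => List.range (a x).length) := (UPoly.length ha).range
  obtain ⟨q, hq⟩ := hp.sz_le
  have hf : NPC.Poly (fun x => (List.range (a x).length).foldr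
      (fun i s => (nlN (p x) (C x) (a x) i * s) % (p x)) (1 % (p x))) := by
    refine Poly.foldr (l := fun x => List.range (a x).length) (s := fun x => 1 % (p x))
      (F := fun x i s => (nlN (p x) (C x) (a x) i * s) % (p x)) hr (by fun_prop) ?_
      (2 * q) ?_
    · have h1 : NPC.Poly (fun y : α × ℕ × ℕ => nlN (p y.1) (C y.1) (a y.1) y.2.1) :=
        nlN_poly (by fun_prop) (by fun_prop) (by fun_prop) (by fun_prop)
      fun_prop
    · intro x k _
      have h3 : (((List.range (a x).length).drop k).foldr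
          (fun i s => (nlN (p x) (C x) (a x) i * s) % (p x)) (1 % (p x))) ≤ p x := by
        cases (List.range (a x).length).drop k with
        | nil => exact (Nat.mod_lt _ (hp0 x)).le
        | cons b l => exact (Nat.mod_lt _ (hp0 x)).le
      have h4 := sz_nat_mono_le h3
      have h5 := hq x
      simp only [Polynomial.eval_mul, Polynomial.eval_ofNat]
      omega
  unfold clN
  fun_prop

theorem sepG_poly {P : α → ℕ} {l : α → List Cf} (hP : UPoly P) (hl : NPC.Poly l) :
    NPC.Poly (fun a => sepG (P a) (l a)) := by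
  have hr : NPC.Poly (fun a => List.range (P a)) := hP.range
  have hP' : NPC.Poly P := hP.toPoly
  have h1 : NPC.Poly (fun y : ((α × ℕ) × Cf) × Cf => evG (P y.1.1.1) y.1.2 y.1.1.2) :=
    evG_poly (by fun_prop) (by fun_prop) (by fun_prop)
  have h2 : NPC.Poly (fun y : ((α × ℕ) × Cf) × Cf => evG (P y.1.1.1) y.2 y.1.1.2) :=
    evG_poly (by fun_prop) (by fun_prop) (by fun_prop)
  have h3 : NPC.Poly (fun y : ((α × ℕ) × Cf) × Cf => decide (y.1.2 = y.2)) := by fun_prop
  have h4 : NPC.Poly (fun y : ((α × ℕ) × Cf) × Cf =>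
      (decide (y.1.2 = y.2) || !decide (evG (P y.1.1.1) y.1.2 y.1.1.2 = evG (P y.1.1.1) y.2 y.1.1.2))) :=
    h3.or (NPC.Poly.not (NPC.Poly.decide_eq h1 h2))
  unfold sepG
  have h5 : NPC.Poly (fun a => (List.range (P a)).filter (fun r => (l a).all (fun g =>
      (l a).all (fun g' => decide (g = g') || !decide (evG (P a) g r = evG (P a) g' r))))) := by
    refine NPC.Poly.filter (p := fun a r => (l a).all (fun g =>
      (l a).all (fun g' => decide (g = g') || !decide (evG (P a) g r = evG (P a) g' r)))) hr ?_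
    refine NPC.Poly.all (l := fun y : α × ℕ => l y.1) (p := fun y g =>
      (l y.1).all (fun g' => decide (g = g') || !decide (evG (P y.1) g y.2 = evG (P y.1) g' y.2)))
      (by fun_prop) ?_
    exact NPC.Poly.all (l := fun y : (α × ℕ) × Cf => l y.1.1) (p := fun y g' =>
      (decide (y.2 = g') || !decide (evG (P y.1.1) y.2 y.1.2 = evG (P y.1.1) g' y.1.2)))
      (by fun_prop) h4
  fun_prop

theorem pickG_poly {P r v : α → ℕ} {l : α → List Cf} (hP : NPC.Poly P) (hl : NPC.Poly l)
    (hr : NPC.Poly r) (hv : NPC.Poly v) : NPC.Poly (fun a => pickG (P a) (l a) (r a) (v a)) := by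
  have h1 : NPC.Poly (fun y : α × Cf => evG (P y.1) y.2 (r y.1)) :=
    evG_poly (by fun_prop) (by fun_prop) (by fun_prop)
  have h2 : NPC.Poly (fun y : α × Cf => v y.1) := by fun_prop
  have h3 : NPC.Poly (fun a => (l a).filter (fun g => decide (evG (P a) g (r a) = v a))) :=
    NPC.Poly.filter (p := fun a g => decide (evG (P a) g (r a) = v a)) hl
      (NPC.Poly.decide_eq h1 h2)
  unfold pickG
  fun_prop

end Pol1

/-- sizes of suffixes -/
theorem sz_suffix_le {α : Type} [TEnc α] {l l' : List α} (h : l <:+ l') : sz l ≤ sz l' := by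
  obtain ⟨t, rfl⟩ := h
  have h1 := sz_append t l
  have h2 := sz_pos t
  omega

end Pool.Agent.H573R2.PSp
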