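import Pool.Agent.H573R2.PSp.Defs
import Pool.Agent.H573R2.PSp.P.POL1

/-!
# The list of candidates is polynomial
-/

namespace Pool.Agent.H573R2.PSp

open Pool.Agent.NPC Pool.Agent.H579R2.Spt Pool.Agent.H656R2.AK Pool.Agent.H623R2.PS

namespace POL2aux

variable {α Φ X : Type} [TEnc α] [TEnc X] [TEnc Φ] [DecidableEq Φ]

theorem all4_poly {P : α → ℕ} (hP : UPoly P) : NPC.Poly (fun a => all4 (P a)) := by
  have h := hP.range
  exact R671.poly_product h (R671.poly_product h (R671.poly_product h h))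

theorem labG_poly {P : α → ℕ} {t : α → ℕ × ℕ} {g : α → Cf} (hP : NPC.Poly P) (ht : NPC.Poly t)
    (hg : NPC.Poly g) : NPC.Poly (fun x => labG (P x) (t x) (g x)) :=
  par_poly (NPC.Poly.snd ht) (evG_poly hP hg (NPC.Poly.fst ht))

theorem rowG_poly {feat : α × Ins → List (ℤ × Φ)} (hf : NPC.Poly feat) {a : X → α} {P : X → ℕ}
    {q : X → List Op × List ℕ × ℕ} {t : X → ℕ × ℕ} (ha : NPC.Poly a) (hP : NPC.Poly P)
    (hq : NPC.Poly q) (ht : NPC.Poly t) :
    NPC.Poly (fun x => rowG (fun i => feat (a x, i)) (P x) (q x) (t x)) := by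
  refine hf.comp (f := fun x => (a x, (P x, (q x).1, (q x).2.1.set (q x).2.2 (t x).1, (t x).2))) ?_
  exact NPC.Poly.pair ha (NPC.Poly.pair hP (NPC.Poly.pair (NPC.Poly.fst hq) (NPC.Poly.pair
    (set_poly (NPC.Poly.fst (NPC.Poly.snd hq)) (NPC.Poly.snd (NPC.Poly.snd hq))
      (NPC.Poly.fst ht)) (NPC.Poly.snd ht))))

theorem sysG_poly {feat : α × Ins → List (ℤ × Φ)} (hf : NPC.Poly feat) {a : X → α} {P T : X → ℕ}
    {q : X → List Op × List ℕ × ℕ} {g : X → Cf} (ha : NPC.Poly a) (hP : UPoly P) (hT : UPoly T)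
    (hq : NPC.Poly q) (hg : NPC.Poly g) :
    NPC.Poly (fun x => sysG (rowG (fun i => feat (a x, i)) (P x) (q x)) (P x) (T x) (g x)) := by
  have e1 : NPC.Poly (fun p : X × ℕ × ℕ => p.1) := NPC.Poly.fst NPC.Poly.id
  have e2 : NPC.Poly (fun p : X × ℕ × ℕ => p.2) := NPC.Poly.snd NPC.Poly.id
  have hP' := hP.toPoly
  exact NPC.Poly.map (l := fun x => tests (P x) (T x))
    (F := fun x t => sc (labG (P x) t (g x)) (rowG (fun i => feat (a x, i)) (P x) (q x) t))
    (tests_poly hP hT)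
    (sc_poly (labG_poly (hP'.comp e1) e2 (hg.comp e1))
      (rowG_poly hf (ha.comp e1) (hP'.comp e1) (hq.comp e1) e2))

end POL2aux

theorem candF_poly {α Φ : Type} [TEnc α] [TEnc Φ] [DecidableEq Φ]
    {feat : α × Ins → List (ℤ × Φ)} (hf : NPC.Poly feat) {P T n : α → ℕ}
    (hP : UPoly P) (hT : UPoly T) (hn : UPoly n) {q : α → List Op × List ℕ × ℕ}
    (hq : NPC.Poly q) :
    NPC.Poly (fun a => candF (fun i => feat (a, i)) (P a) (T a) (n a) (q a)) := by
  have e1 : NPC.Poly (fun p : α × Cf => p.1) := NPC.Poly.fst NPC.Poly.id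
  have e2 : NPC.Poly (fun p : α × Cf => p.2) := NPC.Poly.snd NPC.Poly.id
  exact NPC.Poly.filter (l := fun a => all4 (P a))
    (p := fun a g => ok (sysG (rowG (fun i => feat (a, i)) (P a) (q a)) (P a) (T a) g) (n a))
    (POL2aux.all4_poly hP)
    (ok_poly (POL2aux.sysG_poly hf e1 (hP.comp e1) (hT.comp e1) (hq.comp e1) e2) (hn.comp e1))

end Pool.Agent.H573R2.PSp
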