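import Pool.Agent.H573R2.PSp.P.POL1

/-!
# The forward iteration and the whole algorithm are polynomial
-/

namespace Pool.Agent.H573R2.PSp

open Pool.Agent.NPC Pool.Agent.H579R2.Spt Pool.Agent.H656R2.AK

namespace POL3

theorem sz_nat_lin (n : ℕ) : sz n ≤ 4 * n + 5 := by
  have h1 := sz_nat_le n
  have h2 : n.size ≤ n := by
    rw [Nat.size_le]
    exact Nat.lt_two_pow_self
  omega

theorem sepG_le (P : ℕ) (l : List Cf) : sepG P l ≤ P := by
  unfold sepG
  cases h : ((List.range P).filter (fun r => l.all (fun g => l.all (fun g' =>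
    decide (g = g') || !decide (evG P g r = evG P g' r))))).head? with
  | none => simp
  | some r =>
    have h1 := List.mem_of_mem_head? h
    rw [List.mem_filter, List.mem_range] at h1
    simpa using h1.1.le

theorem combN_le {p : ℕ} (hp : 0 < p) (k x y0 y1 : ℕ) : combN p k x y0 y1 ≤ p := by
  unfold combN
  split_ifs
  · exact (Nat.mod_lt _ hp).le
  · exact (Nat.mod_lt _ hp).le
  · exact (Nat.mod_lt _ hp).le

theorem bwd_le {P : ℕ} (hP : 0 < P) (v : ℕ) (fr : Frame) : bwd P v fr ≤ P := by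
  unfold bwd
  split_ifs
  · exact combN_le hP _ _ _ _
  · exact (Nat.mod_lt _ hP).le

theorem foldl_bwd_le {P : ℕ} (hP : 0 < P) (l : List Frame) : ∀ v ≤ P, l.foldl (bwd P) v ≤ P := by
  induction l with
  | nil => intro v hv; exact hv
  | cons a l ih =>
    intro v _
    rw [List.foldl_cons]
    exact ih _ (bwd_le hP _ _)

/-- The invariant of the forward pass. -/
structure Inv (S N P C j : ℕ) (x : St) : Prop where
  h1 : sz x.1 ≤ S
  h2 : x.2.1.length ≤ N
  h3 : ∀ y ∈ x.2.1, sz y ≤ P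
  h4 : x.2.2.length ≤ j
  h5 : ∀ f ∈ x.2.2, sz f ≤ C

theorem Inv.sz_le {S N P C j : ℕ} {x : St} (h : Inv S N P C j x) :
    sz x ≤ S + (N * (P + 1) + 1) + (j * (C + 1) + 1) + 2 := by
  obtain ⟨s, a, fr⟩ := x
  have h2 := sz_le_length_mul a P h.h3
  have h3 := sz_le_length_mul fr C h.h5
  have h4 : fr.length * (C + 1) ≤ j * (C + 1) := Nat.mul_le_mul_right _ h.h4
  have h5 := h.h1
  have h6 : a.length * (P + 1) ≤ N * (P + 1) := Nat.mul_le_mul_right _ h.h2
  simp only [sz_pair] at *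
  omega

theorem mem_set_le {l : List ℕ} {i v B : ℕ} (h : ∀ y ∈ l, sz y ≤ B) (hv : sz v ≤ B) :
    ∀ y ∈ l.set i v, sz y ≤ B := by
  intro y hy
  rcases List.mem_or_eq_of_mem_set hy with hy | rfl
  · exact h y hy
  · exact hv

theorem Inv.step {S N P C j Q : ℕ} {cand : List Op × List ℕ × ℕ → List Cf} {x : St}
    (h : Inv S N P C j x) (hP : 4 * Q + 5 ≤ P)
    (hC : ∀ (s : List Op) (a : List ℕ) (v : ℕ), sz s ≤ S → sz a ≤ N * (P + 1) + 1 → sz v ≤ S →
      S + (N * (P + 1) + 1) + sz (cand (s, a, v)) + P + 10 ≤ C) :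
    Inv S N P C (j + 1) (fwd Q cand x) := by
  obtain ⟨ops, a, fr⟩ := x
  cases ops with
  | nil =>
    exact ⟨h.h1, h.h2, h.h3, h.h4.trans (Nat.le_succ _), h.h5⟩
  | cons o s =>
    have e1 : sz (o :: s) ≤ S := h.h1
    have e2 : a.length ≤ N := h.h2
    have e3 : ∀ y ∈ a, sz y ≤ P := h.h3
    have e4 : fr.length ≤ j := h.h4
    have e5 : ∀ f ∈ fr, sz f ≤ C := h.h5
    rw [sz_list_cons] at e1
    have ea : sz a ≤ N * (P + 1) + 1 := (sz_le_length_mul a P e3).trans
      (Nat.add_le_add_right (Nat.mul_le_mul_right _ e2) 1)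
    obtain ⟨k, v, Cl⟩ := o
    have e1' : sz k + (sz v + sz Cl + 1) + 1 + sz s + 1 ≤ S := by simpa using e1
    have hs : sepG Q (cand (s, a, v)) ≤ Q := sepG_le _ _
    have hs2 : sz (sepG Q (cand (s, a, v))) ≤ P := by
      have := sz_nat_lin (sepG Q (cand (s, a, v)))
      omega
    have hc := hC s a v (by omega) ea (by omega)
    have key : fwd Q cand ((k, v, Cl) :: s, a, fr) = fwd1 Q cand (k, v, Cl) s a fr := rfl
    rw [key]
    unfold fwd1
    by_cases hk : k < 3
    · rw [if_pos hk]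
      refine ⟨by change sz s ≤ S; omega, ?_, ?_, ?_, ?_⟩
      · change (a.set v _).length ≤ N
        rw [List.length_set]; exact e2
      · exact mem_set_le e3 hs2
      · change (_ :: fr).length ≤ j + 1
        rw [List.length_cons]; omega
      · intro f hf
        rcases List.mem_cons.1 hf with rfl | hf
        · simp only [sz_pair]
          omega
        · exact e5 f hf
    · rw [if_neg hk]
      refine ⟨by change sz s ≤ S; omega, e2, e3, ?_, ?_⟩
      · change (_ :: fr).length ≤ j + 1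
        rw [List.length_cons]; omega
      · intro f hf
        rcases List.mem_cons.1 hf with rfl | hf
        · have h0 : sz (0 : ℕ) = 1 := rfl
          simp only [sz_pair, sz_list_nil, h0]
          omega
        · exact e5 f hf

variable {α : Type} [TEnc α]

theorem fwd1_poly {P : α → ℕ} (hP : UPoly P)
    {cand : α → List Op × List ℕ × ℕ → List Cf}
    (hc : NPC.Poly (fun x : α × (List Op × List ℕ × ℕ) => cand x.1 x.2)) {o : α → Op}
    {s : α → List Op} {a : α → List ℕ} {fr : α → List Frame} (ho : NPC.Poly o)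
    (hs : NPC.Poly s) (ha : NPC.Poly a) (hf : NPC.Poly fr) :
    NPC.Poly (fun x => fwd1 (P x) (cand x) (o x) (s x) (a x) (fr x)) := by
  have hv : NPC.Poly (fun x => (o x).2.1) := NPC.Poly.fst (NPC.Poly.snd ho)
  have h1 : NPC.Poly (fun x => cand x (s x, a x, (o x).2.1)) :=
    hc.comp (NPC.Poly.pair NPC.Poly.id (NPC.Poly.pair hs (NPC.Poly.pair ha hv)))
  have h2 : NPC.Poly (fun x => sepG (P x) (cand x (s x, a x, (o x).2.1))) := sepG_poly hP h1
  have h3 := set_poly ha hv h2
  have h4 : NPC.Poly (fun x => decide ((o x).1 < 3)) :=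
    NPC.Poly.decide_lt (NPC.Poly.fst ho) (NPC.Poly.const 3)
  exact NPC.Poly.ite h4
    (NPC.Poly.pair hs (NPC.Poly.pair h3 (NPC.Poly.cons (NPC.Poly.pair ho (NPC.Poly.pair ha
      (NPC.Poly.pair h1 h2))) hf)))
    (NPC.Poly.pair hs (NPC.Poly.pair ha (NPC.Poly.cons (NPC.Poly.pair ho (NPC.Poly.pair ha
      (NPC.Poly.pair (NPC.Poly.const []) (NPC.Poly.const 0)))) hf)))

theorem fwd_poly {P : α → ℕ} (hP : UPoly P)
    {cand : α → List Op × List ℕ × ℕ → List Cf}
    (hc : NPC.Poly (fun x : α × (List Op × List ℕ × ℕ) => cand x.1 x.2)) {s : α → St}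
    (hs : NPC.Poly s) : NPC.Poly (fun x => fwd (P x) (cand x) (s x)) := by
  have h1 : NPC.Poly (fun x => (s x).1) := NPC.Poly.fst hs
  have g1 : NPC.Poly (fun p : α × Op => p.1) := NPC.Poly.fst NPC.Poly.id
  refine NPC.Poly.optElim (h := fun x o => fwd1 (P x) (cand x) o (s x).1.tail (s x).2.1 (s x).2.2)
    (NPC.Poly.head? h1) hs ?_
  refine fwd1_poly (P := fun p : α × Op => P p.1) (cand := fun p : α × Op => cand p.1)
    (hP.comp g1) ?_ (NPC.Poly.snd NPC.Poly.id) ?_ ?_ ?_
  · exact hc.comp (NPC.Poly.pair (NPC.Poly.fst (NPC.Poly.fst NPC.Poly.id))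
      (NPC.Poly.snd NPC.Poly.id))
  · exact (NPC.Poly.tail h1).comp g1
  · exact (NPC.Poly.fst (NPC.Poly.snd hs)).comp g1
  · exact (NPC.Poly.snd (NPC.Poly.snd hs)).comp g1

theorem uPoly_le_eval {n : α → ℕ} (hn : UPoly n) : ∃ q : Polynomial ℕ, ∀ a, n a ≤ q.eval (sz a) := by
  obtain ⟨q, hq⟩ := Poly.sz_le hn
  refine ⟨q, fun a => ?_⟩
  have h1 := hq a
  have h2 := length_lt_sz (List.replicate (n a) ())
  rw [List.length_replicate] at h2
  omega

theorem bwd_poly {P v : α → ℕ} {fr : α → Frame} (hP : NPC.Poly P) (hP0 : ∀ x, 0 < P x)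
    (hv : NPC.Poly v) (hf : NPC.Poly fr) : NPC.Poly (fun x => bwd (P x) (v x) (fr x)) := by
  have f1 : NPC.Poly (fun x => (fr x).1.1) := NPC.Poly.fst (NPC.Poly.fst hf)
  have f2 : NPC.Poly (fun x => (fr x).1.2.1) := NPC.Poly.fst (NPC.Poly.snd (NPC.Poly.fst hf))
  have f3 : NPC.Poly (fun x => (fr x).1.2.2) := NPC.Poly.snd (NPC.Poly.snd (NPC.Poly.fst hf))
  have f4 : NPC.Poly (fun x => (fr x).2.1) := NPC.Poly.fst (NPC.Poly.snd hf)
  have f5 : NPC.Poly (fun x => (fr x).2.2.1) := NPC.Poly.fst (NPC.Poly.snd (NPC.Poly.snd hf))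
  have f6 : NPC.Poly (fun x => (fr x).2.2.2) := NPC.Poly.snd (NPC.Poly.snd (NPC.Poly.snd hf))
  have f7 := pickG_poly hP f5 f6 hv
  have f8 : NPC.Poly (fun x => (fr x).2.1.getD (fr x).1.2.1 0) := by
    fun_prop
  exact NPC.Poly.ite (NPC.Poly.decide_lt f1 (NPC.Poly.const 3))
    (combN_poly hP f1 f8 (evG_poly hP f7 (NPC.Poly.const 0)) (evG_poly hP f7 (NPC.Poly.const 1)))
    (NPC.Poly.mod (NPC.Poly.mul (clN_poly hP hP0 f3 f4) hv) hP)

end POL3

section Pol

open POL3

variable {α : Type} [TEnc α]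

theorem fwdIter_poly {P k : α → ℕ} (hP : UPoly P) (hk : UPoly k)
    {cand : α → List Op × List ℕ × ℕ → List Cf}
    (hc : NPC.Poly (fun x : α × (List Op × List ℕ × ℕ) => cand x.1 x.2)) {ops : α → List Op}
    {a0 : α → List ℕ} (ho : NPC.Poly ops) (ha : NPC.Poly a0) :
    NPC.Poly (fun x => (fwd (P x) (cand x))^[k x] (ops x, a0 x, [])) := by
  obtain ⟨qk, hqk⟩ := uPoly_le_eval hk
  obtain ⟨qP, hqP⟩ := uPoly_le_eval hP
  obtain ⟨qo, hqo⟩ := ho.sz_le
  obtain ⟨qa, hqa⟩ := ha.sz_le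
  obtain ⟨qc, hqc⟩ := hc.sz_le
  have key : ∀ (x : α) (j : ℕ),
      Inv (qo.eval (sz x)) (qa.eval (sz x)) (4 * qP.eval (sz x) + 5 + qa.eval (sz x))
        (qo.eval (sz x) + (qa.eval (sz x) * (4 * qP.eval (sz x) + 5 + qa.eval (sz x) + 1) + 1) +
          qc.eval (sz x + qo.eval (sz x) + (qa.eval (sz x) *
            (4 * qP.eval (sz x) + 5 + qa.eval (sz x) + 1) + 1) + qo.eval (sz x) + 3) +
          (4 * qP.eval (sz x) + 5 + qa.eval (sz x)) + 10) j
        ((fwd (P x) (cand x))^[j] (ops x, a0 x, [])) := by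
    intro x j
    induction j with
    | zero =>
      refine ⟨hqo x, ?_, ?_, le_rfl, ?_⟩
      · have h1 := length_lt_sz (a0 x)
        have h2 := hqa x
        change (a0 x).length ≤ _
        omega
      · intro y hy
        have h1 := sz_le_of_mem (l := a0 x) hy
        have h2 := hqa x
        omega
      · intro f hf
        exact absurd hf (List.not_mem_nil)
    | succ j ih =>
      rw [Function.iterate_succ_apply']
      refine ih.step ?_ ?_
      · have := hqP x
        omega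
      · intro s a v hs hsa hv
        have h1 := hqc (x, (s, a, v))
        have h2 := h1.trans (eval_mono qc (n := sz x + qo.eval (sz x) + (qa.eval (sz x) *
            (4 * qP.eval (sz x) + 5 + qa.eval (sz x) + 1) + 1) + qo.eval (sz x) + 3) (by
              simp only [sz_pair]
              omega))
        simp only at h2
        omega
  refine (NPC.Poly.iterLen (l := fun a => List.replicate (k a) ()) (s := fun x => (ops x, a0 x, []))
    (F := fun x y => fwd (P x) (cand x) y) hk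
    (NPC.Poly.pair ho (NPC.Poly.pair ha (NPC.Poly.const _)))
    (fwd_poly (P := fun p : α × St => P p.1) (cand := fun p : α × St => cand p.1)
      (hP.comp (NPC.Poly.fst NPC.Poly.id)) (hc.comp (NPC.Poly.pair
        (NPC.Poly.fst (NPC.Poly.fst NPC.Poly.id)) (NPC.Poly.snd NPC.Poly.id)))
      (NPC.Poly.snd NPC.Poly.id))
    (qo + (qa * (4 * qP + 5 + qa + 1) + 1) + (qk * ((qo + (qa * (4 * qP + 5 + qa + 1) + 1) +
          qc.comp (Polynomial.X + qo + (qa * (4 * qP + 5 + qa + 1) + 1) + qo + 3) +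
          (4 * qP + 5 + qa) + 10) + 1) + 1) + 2) ?_).congr ?_
  · intro x j hj
    rw [List.length_replicate] at hj
    have h1 := (key x j).sz_le
    have h2 := hqk x
    simp only [Polynomial.eval_add, Polynomial.eval_mul, Polynomial.eval_one, Polynomial.eval_comp,
      Polynomial.eval_X, Polynomial.eval_ofNat]
    refine h1.trans ?_
    gcongr
    exact hj.trans h2
  · intro a
    rw [List.length_replicate]

theorem solveG_poly {P : α → ℕ} (hP : UPoly P) (hP0 : ∀ x, 0 < P x)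
    {cand : α → List Op × List ℕ × ℕ → List Cf}
    (hc : NPC.Poly (fun x : α × (List Op × List ℕ × ℕ) => cand x.1 x.2)) {ops : α → List Op}
    {a0 : α → List ℕ} (ho : NPC.Poly ops) (ha : NPC.Poly a0) :
    NPC.Poly (fun x => solveG (P x) (cand x) (ops x) (a0 x)) := by
  obtain ⟨qP, hqP⟩ := uPoly_le_eval hP
  have h1 := fwdIter_poly hP (UPoly.length ho) hc ho ha
  have h2 : NPC.Poly (fun x => ((fwd (P x) (cand x))^[(ops x).length] (ops x, a0 x, [])).2.2) :=
    NPC.Poly.snd (NPC.Poly.snd h1)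
  refine NPC.Poly.foldl (l := fun x => ((fwd (P x) (cand x))^[(ops x).length]
    (ops x, a0 x, [])).2.2) (s := fun x => 1 % P x) (F := fun x v f => bwd (P x) v f) h2
    (NPC.Poly.mod (NPC.Poly.const 1) hP.toPoly)
    (bwd_poly (hP.toPoly.comp (NPC.Poly.fst NPC.Poly.id)) (fun x => hP0 x.1)
      (NPC.Poly.fst (NPC.Poly.snd NPC.Poly.id)) (NPC.Poly.snd (NPC.Poly.snd NPC.Poly.id)))
    (4 * qP + 5) ?_
  intro x k _
  have h3 : ((((fwd (P x) (cand x))^[(ops x).length] (ops x, a0 x, [])).2.2).take k).foldl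
      (fun v f => bwd (P x) v f) (1 % P x) ≤ P x :=
    foldl_bwd_le (hP0 x) _ (1 % P x) (Nat.mod_lt _ (hP0 x)).le
  have h4 := hqP x
  simp only [Polynomial.eval_add, Polynomial.eval_mul, Polynomial.eval_ofNat]
  refine (sz_nat_lin _).trans ?_
  omega

end Pol

end Pool.Agent.H573R2.PSp
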