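import Pool.Agent.H573R2.PSp.P.CST
import Pool.Agent.H573R2.PSp.P.POL1

/-!
# The problem `BP` is in `PSPACE`
-/

namespace Pool.Agent.H573R2.PSp

open Pool.Agent.NPC Pool.Agent.H579R2.Spt Pool.Agent.H656R2.AK Pool.Agent.H623R2.PS


namespace Psp

/-! ### The alternating check -/

/-- The state of the check: result so far, assignment, claimed value, remaining bits. -/
abbrev BS := Bool × List ℕ × ℕ × List Bool

/-- Checking one operation. -/
def bstep (w p : ℕ) (s : BS) (o : Op) : BS :=
  if o.1 < 3 then
    (s.1 && decide (combN p o.1 (s.2.1.getD o.2.1 0) (valB (s.2.2.2.take w))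
        (valB ((s.2.2.2.drop w).take w)) = s.2.2.1),
      s.2.1.set o.2.1 (if (((s.2.2.2.drop w).drop w).head?).getD false = true then 1 else 0),
      (if (((s.2.2.2.drop w).drop w).head?).getD false = true then valB ((s.2.2.2.drop w).take w)
        else valB (s.2.2.2.take w)),
      (((s.2.2.2.drop w).drop w).drop 1))
  else (s.1 && decide ((clN p o.2.2 s.2.1 * valB (s.2.2.2.take w)) % p = s.2.2.1), s.2.1,
    valB (s.2.2.2.take w), (((s.2.2.2.drop w).drop w).drop 1))

/-- The result of the check. -/
def bfin (p : ℕ) (s : BS) : Bool := s.1 && decide (s.2.2.1 = 1 % p)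

/-- The quantifiers of the operations. -/
def bqs (w : ℕ) (ops : List Op) : List Bool :=
  ops.flatMap fun _ => List.replicate w false ++ (List.replicate w false ++ [true])

/-- The width. -/
def wid (p : ℕ) : ℕ := p.bits.length

theorem valB_replicate (n : ℕ) : valB (List.replicate n false) = 0 := by
  induction n with
  | zero => rfl
  | succ n ih => simp [List.replicate_succ, ih]

theorem exists_valB {p y : ℕ} (h : y < p) : ∃ M : List Bool, M.length = wid p ∧ valB M = y := by
  have h1 : y.bits.length ≤ wid p := by
    unfold wid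
    rw [Nat.size_eq_bits_len, Nat.size_eq_bits_len]
    exact Nat.size_le_size h.le
  refine ⟨y.bits ++ List.replicate (wid p - y.bits.length) false, by simp; omega, ?_⟩
  rw [valB_append, valB_replicate, valB_bits]
  simp

theorem bfin_ok (w p : ℕ) (ops : List Op) : ∀ (c : Bool) (s : BS),
    bfin p (ops.foldl (bstep w p) (c && s.1, s.2)) = (c && bfin p (ops.foldl (bstep w p) s)) := by
  induction ops with
  | nil =>
    intro c s
    show ((c && s.1) && decide (s.2.2.1 = 1 % p)) = (c && (s.1 && decide (s.2.2.1 = 1 % p)))
    rw [Bool.and_assoc]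
  | cons o ops ih =>
    intro c s
    rw [List.foldl_cons, List.foldl_cons, ← ih]
    congr 2
    unfold bstep
    split_ifs <;> simp [Bool.and_assoc]

theorem bcheck {p : ℕ} (hp : 0 < p) (ops : List Op) : ∀ (a : List ℕ) (y : ℕ),
    (evq (bqs (wid p) ops) (fun u => bfin p (ops.foldl (bstep (wid p) p) (true, a, y, u))) = true ↔
      evN p ops a = y) := by
  induction ops with
  | nil =>
    intro a y
    have e : (fun u => bfin p (([] : List Op).foldl (bstep (wid p) p) (true, a, y, u))) =
        fun _ : List Bool => decide (y = 1 % p) := rfl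
    rw [e]
    show decide (y = 1 % p) = true ↔ 1 % p = y
    rw [decide_eq_true_eq]
    exact eq_comm
  | cons o ops ih =>
    intro a y
    have e1 : bqs (wid p) (o :: ops) = List.replicate (wid p) false ++
        (List.replicate (wid p) false ++ (true :: bqs (wid p) ops)) := by
      simp [bqs]
    rw [e1, evq_exists]
    have key : ∀ M0 M1 : List Bool, M0.length = wid p → M1.length = wid p → ∀ b : Bool,
        ∀ u : List Bool, bstep (wid p) p (true, a, y, M0 ++ (M1 ++ (b :: u))) o =
          (if o.1 < 3 then (decide (combN p o.1 (a.getD o.2.1 0) (valB M0) (valB M1) = y),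
            a.set o.2.1 (if b = true then 1 else 0), (if b = true then valB M1 else valB M0), u)
          else (decide ((clN p o.2.2 a * valB M0) % p = y), a, valB M0, u)) := by
      intro M0 M1 h0 h1 b u
      unfold bstep
      have f1 : (M0 ++ (M1 ++ (b :: u))).take (wid p) = M0 := by rw [← h0]; simp
      have f2 : (M0 ++ (M1 ++ (b :: u))).drop (wid p) = M1 ++ (b :: u) := by rw [← h0]; simp
      have f3 : (M1 ++ (b :: u)).take (wid p) = M1 := by rw [← h1]; simp
      have f4 : (M1 ++ (b :: u)).drop (wid p) = b :: u := by rw [← h1]; simp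
      simp only [f1, f2, f3, f4, List.head?_cons, Option.getD_some, Bool.true_and, List.drop_one,
        List.tail_cons]
    have hstep : ∀ M0 M1 : List Bool, M0.length = wid p → M1.length = wid p →
        (evq (true :: bqs (wid p) ops) (fun u => bfin p ((o :: ops).foldl (bstep (wid p) p)
          (true, a, y, M0 ++ (M1 ++ u)))) = true ↔
        if o.1 < 3 then combN p o.1 (a.getD o.2.1 0) (valB M0) (valB M1) = y ∧
            evN p ops (a.set o.2.1 0) = valB M0 ∧ evN p ops (a.set o.2.1 1) = valB M1
          else (clN p o.2.2 a * valB M0) % p = y ∧ evN p ops a = valB M0) := by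
      intro M0 M1 h0 h1
      rw [evq, cond_true, Bool.and_eq_true]
      by_cases ho : o.1 < 3
      · have g : ∀ b : Bool, (fun u => bfin p ((o :: ops).foldl (bstep (wid p) p)
            (true, a, y, M0 ++ (M1 ++ (b :: u))))) =
            (fun u => decide (combN p o.1 (a.getD o.2.1 0) (valB M0) (valB M1) = y) &&
              bfin p (ops.foldl (bstep (wid p) p) (true, a.set o.2.1 (if b = true then 1 else 0),
                (if b = true then valB M1 else valB M0), u))) := by
          intro b
          funext u
          rw [List.foldl_cons, key M0 M1 h0 h1, if_pos ho, ← bfin_ok]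
          simp
        rw [g, g, evq_and, evq_and, Bool.and_eq_true, Bool.and_eq_true, ih, ih, if_pos ho]
        simp only [decide_eq_true_eq, Bool.false_eq_true, if_false, if_true]
        tauto
      · have g : ∀ b : Bool, (fun u => bfin p ((o :: ops).foldl (bstep (wid p) p)
            (true, a, y, M0 ++ (M1 ++ (b :: u))))) =
            (fun u => decide ((clN p o.2.2 a * valB M0) % p = y) &&
              bfin p (ops.foldl (bstep (wid p) p) (true, a, valB M0, u))) := by
          intro b
          funext u
          rw [List.foldl_cons, key M0 M1 h0 h1, if_neg ho, ← bfin_ok]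
          simp
        rw [g, g, evq_and, Bool.and_eq_true, ih, if_neg ho]
        simp only [decide_eq_true_eq]
        tauto
    constructor
    · rintro ⟨M0, h0, h⟩
      rw [evq_exists] at h
      obtain ⟨M1, h1, h⟩ := h
      have h2 := (hstep M0 M1 h0 h1).1 h
      unfold evN
      split_ifs at h2 ⊢ with ho
      · rw [h2.2.1, h2.2.2]; exact h2.1
      · rw [h2.2]; exact h2.1
    · intro h
      unfold evN at h
      by_cases ho : o.1 < 3
      · rw [if_pos ho] at h
        obtain ⟨M0, h0, h0'⟩ := exists_valB (evN_lt hp ops (a.set o.2.1 0))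
        obtain ⟨M1, h1, h1'⟩ := exists_valB (evN_lt hp ops (a.set o.2.1 1))
        refine ⟨M0, h0, ?_⟩
        rw [evq_exists]
        refine ⟨M1, h1, (hstep M0 M1 h0 h1).2 ?_⟩
        rw [if_pos ho, h0', h1']
        exact ⟨h, rfl, rfl⟩
      · rw [if_neg ho] at h
        obtain ⟨M0, h0, h0'⟩ := exists_valB (evN_lt hp ops a)
        refine ⟨M0, h0, ?_⟩
        rw [evq_exists]
        refine ⟨M0, h0, (hstep M0 M0 h0 h0).2 ?_⟩
        rw [if_neg ho, h0']
        exact ⟨h, rfl⟩

/-- The matrix for the instance `q`. -/
def bmat (q : Ins) (u : List Bool) : Bool :=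
  decide (0 < q.1) && (par q.2.2.2 (valB (u.take (wid (max q.1 1)))) &&
    bfin (max q.1 1) (q.2.1.foldl (bstep (wid (max q.1 1)) (max q.1 1))
      (true, q.2.2.1, valB (u.take (wid (max q.1 1))), u.drop (wid (max q.1 1)))))

/-- The quantifiers for the instance `q`. -/
def ballq (q : Ins) : List Bool :=
  List.replicate (wid (max q.1 1)) false ++ bqs (wid (max q.1 1)) q.2.1

theorem bmat_iff (q : Ins) : evq (ballq q) (bmat q) = true ↔ BP q := by
  obtain ⟨p, ops, a, ρ⟩ := q
  unfold ballq
  rw [evq_exists]
  by_cases hp : 0 < p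
  · have hm : max p 1 = p := max_eq_left hp
    have key : ∀ M : List Bool, M.length = wid p → ∀ u, bmat (p, ops, a, ρ) (M ++ u) =
        (par ρ (valB M) && bfin p (ops.foldl (bstep (wid p) p) (true, a, valB M, u))) := by
      intro M hM u
      unfold bmat
      simp only [hm]
      have f1 : (M ++ u).take (wid p) = M := by rw [← hM]; simp
      have f2 : (M ++ u).drop (wid p) = u := by rw [← hM]; simp
      rw [f1, f2]
      simp [hp]
    simp only [hm]
    constructor
    · rintro ⟨M, hM, h⟩
      have e : (fun u => bmat (p, ops, a, ρ) (M ++ u)) = fun u => (par ρ (valB M) &&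
        bfin p (ops.foldl (bstep (wid p) p) (true, a, valB M, u))) := funext (key M hM)
      rw [e, evq_and, Bool.and_eq_true, bcheck hp] at h
      refine ⟨hp, ?_⟩
      simp only
      rw [h.2]; exact h.1
    · rintro ⟨-, h⟩
      simp only at h
      obtain ⟨M, hM, hM'⟩ := exists_valB (evN_lt hp ops a)
      refine ⟨M, hM, ?_⟩
      have e : (fun u => bmat (p, ops, a, ρ) (M ++ u)) = fun u => (par ρ (valB M) &&
        bfin p (ops.foldl (bstep (wid p) p) (true, a, valB M, u))) := funext (key M hM)
      rw [e, evq_and, Bool.and_eq_true, bcheck hp]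
      rw [hM']
      exact ⟨h, rfl⟩
  · constructor
    · rintro ⟨M, -, h⟩
      have e : (fun u => bmat (p, ops, a, ρ) (M ++ u)) = fun u => (false && false) := by
        funext u
        simp [bmat, hp]
      rw [e, evq_and] at h
      simp at h
    · rintro ⟨h, -⟩
      exact absurd h hp

/-! ### Polynomial time -/

theorem sz_set_le {β : Type} [TEnc β] (l : List β) : ∀ (i : ℕ) (x : β),
    sz (l.set i x) ≤ sz l + sz x := by
  induction l with
  | nil => intro i x; simp
  | cons b l ih =>
    intro i x
    cases i with
    | zero => simp; omega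
    | succ i =>
      have := ih i x
      simp
      omega

theorem sz_valB_le (l : List Bool) : sz (valB l) ≤ 4 * l.length + 1 := by
  have h1 := sz_nat_le (valB l)
  have h2 := Nat.size_le.2 (valB_lt l)
  omega

theorem bstep_sz (w p B : ℕ) (ops : List Op) : ∀ (s : BS), sz s.2.2.1 ≤ B →
    4 * s.2.2.2.length + 1 ≤ B →
    sz (ops.foldl (bstep w p) s).2.1 ≤ sz s.2.1 + 10 * ops.length ∧
      (ops.foldl (bstep w p) s).2.2.2.length ≤ s.2.2.2.length ∧
      sz (ops.foldl (bstep w p) s).2.2.1 ≤ B := by
  induction ops with
  | nil => intro s h1 h2; exact ⟨by simp, by simp, h1⟩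
  | cons o ops ih =>
    intro s hB1 hB2
    rw [List.foldl_cons]
    obtain ⟨c, a, y, r⟩ := s
    simp only at hB1 hB2
    have hb : ∀ b : Bool, sz (if b = true then 1 else 0 : ℕ) ≤ 10 := by
      intro b
      have := sz_nat_le (if b = true then 1 else 0 : ℕ)
      cases b <;> simp at this ⊢ <;> omega
    have h0 : sz (bstep w p (c, a, y, r) o).2.1 ≤ sz a + 10 ∧
        (bstep w p (c, a, y, r) o).2.2.2.length ≤ r.length ∧
        sz (bstep w p (c, a, y, r) o).2.2.1 ≤ B := by
      unfold bstep
      have t1 := sz_valB_le (r.take w)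
      have t2 := sz_valB_le ((r.drop w).take w)
      simp only [List.length_take, List.length_drop] at t1 t2
      have hb1 : sz (1 : ℕ) ≤ 10 := hb true
      have hb0 : sz (0 : ℕ) ≤ 10 := hb false
      split_ifs
      · refine ⟨?_, by simp, ?_⟩
        · refine (sz_set_le _ _ _).trans ?_
          simp only
          omega
        · simp only
          omega
      · refine ⟨?_, by simp, ?_⟩
        · refine (sz_set_le _ _ _).trans ?_
          simp only
          omega
        · simp only
          omega
      · refine ⟨by simp, by simp, ?_⟩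
        simp only
        omega
    obtain ⟨g1, g2, g3⟩ := h0
    obtain ⟨h1, h2, h3⟩ := ih (bstep w p (c, a, y, r) o) g3 (by omega)
    refine ⟨?_, ?_, h3⟩
    · simp only [List.length_cons]; omega
    · simp only; omega

attribute [local fun_prop] take_poly' drop_poly' set_poly combN_poly par_poly NPC.Poly.natBits
  NPC.Poly.valBits

theorem poly_bstep : NPC.Poly (fun x : (ℕ × ℕ) × BS × Op =>
    bstep x.1.1 (max x.1.2 1) x.2.1 x.2.2) := by
  have hcl : NPC.Poly (fun x : (ℕ × ℕ) × BS × Op =>
      clN (max x.1.2 1) x.2.2.2.2 x.2.1.2.1) :=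
    clN_poly (p := fun x : (ℕ × ℕ) × BS × Op => max x.1.2 1) (by fun_prop)
      (fun x => by omega) (by fun_prop) (by fun_prop)
  unfold bstep
  fun_prop

theorem poly_bmat : NPC.Poly (fun x : Ins × List Bool => bmat x.1 x.2) := by
  have hw : NPC.Poly (fun x : Ins × List Bool => wid (max x.1.1 1)) := by
    unfold wid
    fun_prop
  have hfold : NPC.Poly (fun x : Ins × List Bool =>
      x.1.2.1.foldl (bstep (wid (max x.1.1 1)) (max x.1.1 1))
        (true, x.1.2.2.1, valB (x.2.take (wid (max x.1.1 1))), x.2.drop (wid (max x.1.1 1)))) := by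
    refine NPC.Poly.foldl (l := fun x : Ins × List Bool => x.1.2.1)
      (s := fun x => ((true, x.1.2.2.1, valB (x.2.take (wid (max x.1.1 1))),
        x.2.drop (wid (max x.1.1 1))) : BS))
      (F := fun x s o => bstep (wid (max x.1.1 1)) (max x.1.1 1) s o)
      (by fun_prop) (by fun_prop) ?_ (30 * Polynomial.X + 40) ?_
    · exact poly_bstep.comp (f := fun p : (Ins × List Bool) × BS × Op =>
        ((wid (max p.1.1.1 1), p.1.1.1), p.2)) (by
          have := hw.comp (f := fun p : (Ins × List Bool) × BS × Op => p.1) (by fun_prop)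
          fun_prop)
    · rintro ⟨⟨p, ops, a, ρ⟩, u⟩ k hk
      simp only
      set w := wid (max p 1) with hw'
      have t0 := sz_valB_le (u.take w)
      simp only [List.length_take] at t0
      have t1 : (ops.take k).length ≤ ops.length := by simp
      obtain ⟨h1, h2, h3⟩ := bstep_sz w (max p 1) (4 * u.length + 1) (ops.take k)
        (true, a, valB (u.take w), u.drop w) (by simp only; omega)
        (by simp only [List.length_drop]; omega)
      simp only at h1 h2 h3
      set y := (ops.take k).foldl (bstep w (max p 1)) (true, a, valB (u.take w), u.drop w) with hy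
      have e1 : sz y = sz y.1 + (sz y.2.1 + (sz y.2.2.1 + sz y.2.2.2 + 1) + 1) + 1 := by
        obtain ⟨y1, y2, y3, y4⟩ := y
        simp
      have e2 := sz_bool_le y.1
      have e3 := sz_listBool_le y.2.2.2
      have e4 := sz_listBool_ge u
      have e5 := length_lt_sz ops
      simp only [List.length_drop] at h2
      simp only [Polynomial.eval_add, Polynomial.eval_mul, Polynomial.eval_X, Polynomial.eval_ofNat,
        sz_pair]
      omega
  unfold bmat bfin
  fun_prop

theorem poly_ballq : NPC.Poly (fun q : Ins => ballq q) := by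
  have hw : UPoly (fun q : Ins => wid (max q.1 1)) := by
    unfold wid
    exact UPoly.length (by fun_prop)
  have h1 := poly_replicate hw false
  have h2 : NPC.Poly (fun q : Ins => List.replicate (wid (max q.1 1)) false ++
      (List.replicate (wid (max q.1 1)) false ++ [true])) := by fun_prop
  have h3 : NPC.Poly (fun q : Ins => bqs (wid (max q.1 1)) q.2.1) := by
    unfold bqs
    refine NPC.Poly.flatMap (l := fun q : Ins => q.2.1)
      (F := fun q _ => List.replicate (wid (max q.1 1)) false ++
        (List.replicate (wid (max q.1 1)) false ++ [true])) (by fun_prop) ?_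
    exact h2.comp (f := fun p : Ins × Op => p.1) (by fun_prop)
  unfold ballq
  fun_prop

end Psp

open Psp

theorem bp_inPSPACE : InPSPACE (lang BP) := by
  have hu : NPC.Poly (fun x : List Bool => (unbits Ins x).getD (0, [], [], 0)) :=
    NPC.Poly.optGetD poly_unbits (NPC.Poly.const _)
  refine inPSPACE_of_evq (init := fun x : List Bool => (unbits Ins x).getD (0, [], [], 0)) hu
    (qs := fun x => ballq ((unbits Ins x).getD (0, [], [], 0)))
    (poly_ballq.comp hu) (φ := bmat) poly_bmat ?_
  intro x
  rw [mem_lang_iff, bmat_iff]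
  cases h : unbits Ins x with
  | none =>
    simp only [Option.getD_none]
    constructor
    · rintro ⟨a, ha, -⟩
      exact absurd ha (by simp)
    · rintro ⟨h, -⟩
      exact absurd h (by simp)
  | some a =>
    simp only [Option.getD_some, Option.some_inj]
    constructor
    · rintro ⟨b, rfl, hb⟩; exact hb
    · intro hb; exact ⟨a, rfl, hb⟩

end Pool.Agent.H573R2.PSp
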