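import Pool.Agent.H573R2.PSp.P.ORT

/-!
# A point separating all candidates
-/

namespace Pool.Agent.H573R2.PSp

open Pool.Agent.NPC Pool.Agent.H579R2.Spt Pool.Agent.H656R2.AK Finset

theorem exists_sep {P : ℕ} (hP : P.Prime) (l : List Cf) (hl : ∀ g ∈ l, g ∈ all4 P)
    (hlen : 3 * l.length * l.length < P) :
    ∃ r < P, ∀ g ∈ l, ∀ g' ∈ l, evG P g r = evG P g' r → g = g' := by
  by_contra hcon
  push Not at hcon
  have hsub : range P ⊆ ((l.toFinset ×ˢ l.toFinset).filter (fun q => q.1 ≠ q.2)).biUnion
      (fun q => (range P).filter (fun t => evG P q.1 t = evG P q.2 t)) := by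
    intro r hr
    obtain ⟨g, hg, g', hg', he, hne⟩ := hcon r (Finset.mem_range.1 hr)
    rw [Finset.mem_biUnion]
    refine ⟨(g, g'), ?_, ?_⟩
    · rw [Finset.mem_filter, Finset.mem_product]
      exact ⟨⟨List.mem_toFinset.2 hg, List.mem_toFinset.2 hg'⟩, hne⟩
    · rw [Finset.mem_filter]
      exact ⟨hr, he⟩
  have h1 := Finset.card_le_card hsub
  rw [Finset.card_range] at h1
  have h2 : (((l.toFinset ×ˢ l.toFinset).filter (fun q => q.1 ≠ q.2)).biUnion
      (fun q => (range P).filter (fun t => evG P q.1 t = evG P q.2 t))).card ≤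
      ((l.toFinset ×ˢ l.toFinset).filter (fun q => q.1 ≠ q.2)).card * 3 := by
    refine Finset.card_biUnion_le_card_mul _ _ _ fun q hq => ?_
    rw [Finset.mem_filter, Finset.mem_product, List.mem_toFinset, List.mem_toFinset] at hq
    exact collisions4 hP (hl _ hq.1.1) (hl _ hq.1.2) hq.2
  have h3 : ((l.toFinset ×ˢ l.toFinset).filter (fun q => q.1 ≠ q.2)).card ≤
      l.length * l.length := by
    refine (Finset.card_filter_le _ _).trans ?_
    rw [Finset.card_product]
    exact Nat.mul_le_mul (List.toFinset_card_le _) (List.toFinset_card_le _)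
  have h4 := h1.trans (h2.trans (Nat.mul_le_mul_right 3 h3))
  have h5 : 3 * l.length * l.length = l.length * l.length * 3 := by ring
  omega

theorem sepG_spec {P : ℕ} (hP : P.Prime) (l : List Cf) (hl : ∀ g ∈ l, g ∈ all4 P)
    (hlen : 3 * l.length * l.length < P) :
    sepG P l < P ∧ ∀ g ∈ l, ∀ g' ∈ l, evG P g (sepG P l) = evG P g' (sepG P l) → g = g' := by
  obtain ⟨r, hr, hgood⟩ := exists_sep hP l hl hlen
  set L : List ℕ := (List.range P).filter (fun r => l.all (fun g => l.all (fun g' =>
    decide (g = g') || !decide (evG P g r = evG P g' r)))) with hL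
  have hmemL : ∀ x, x ∈ L ↔ x < P ∧ ∀ g ∈ l, ∀ g' ∈ l, evG P g x = evG P g' x → g = g' := by
    intro x
    rw [hL, List.mem_filter, List.mem_range, List.all_eq_true]
    refine and_congr_right fun _ => ?_
    refine forall_congr' fun g => forall_congr' fun _ => ?_
    rw [List.all_eq_true]
    refine forall_congr' fun g' => forall_congr' fun _ => ?_
    rw [Bool.or_eq_true, decide_eq_true_iff, Bool.not_eq_true', decide_eq_false_iff_not]
    tauto
  have hne : L ≠ [] := List.ne_nil_of_mem ((hmemL r).2 ⟨hr, hgood⟩)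
  have hs : sepG P l = L.head hne := by
    change (L.head?).getD 0 = L.head hne
    rw [List.head?_eq_some_head hne]
    rfl
  rw [hs]
  exact (hmemL _).1 (List.head_mem hne)

end Pool.Agent.H573R2.PSp
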