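import Pool.Agent.H573R2.PSp.Defs2

/-!
# The trivial converse: languages in P threshold-reduce to the empty set; sparse sets
-/

namespace Pool.Agent.H573R2.PSp

open Pool.Agent.NPC Pool.Agent.H579R2.Spt Pool.Agent.H623R2.PS

theorem census_empty (n : ℕ) : census ∅ n = 0 := by
  unfold census
  simp

theorem polyBounded_empty : PolyBounded ∅ (fun _ => 1) (fun _ => 0) := by
  refine ⟨monotone_const, monotone_const, 2, fun n => ?_⟩
  simp

theorem sparse_empty : Sparse ∅ := ⟨0, fun n => by rw [census_empty]; simp⟩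

theorem thr_of_inP {L : Set (List Bool)} (h : InP L) :
    ThresholdReduces L ∅ (fun _ => 1) (fun _ => 0) := by
  obtain ⟨V, hV, hL⟩ := h
  have hpV : Poly V := PIso.poly_iff.2 hV
  refine ⟨fun x => if V x = [true] then [((1 : ℤ), ([] : List (List Bool)))] else [], ?_, ?_⟩
  · exact polyTime_bits (Poly.ite (Poly.decide_eq hpV (NPC.Poly.const _)) (NPC.Poly.const _) (NPC.Poly.const _))
  · intro x
    by_cases hx : V x = [true]
    · simp only [if_pos hx]
      refine ⟨by simp, by simp [weight], ?_⟩
      rw [hL x]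
      simp [value, hx]
    · simp only [if_neg hx]
      refine ⟨by simp, by simp [weight], ?_⟩
      rw [hL x]
      simp [value, hx]

theorem poly_nat_mono (p : Polynomial ℕ) : Monotone (fun n => p.eval n) := by
  intro a b hab
  simp only [Polynomial.eval_eq_sum]
  refine Finset.sum_le_sum fun i _ => ?_
  exact Nat.mul_le_mul_left _ (Nat.pow_le_pow_left hab i)

theorem polyBounded_of_sparse {S : Set (List Bool)} (hS : Sparse S) (q : Polynomial ℕ) (c : ℕ) :
    PolyBounded S (fun n => q.eval n) (fun _ => c) := by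
  obtain ⟨p, hp⟩ := hS
  refine ⟨poly_nat_mono q, monotone_const, (q + 1) * (p + 1) ^ c, fun n => ?_⟩
  simp only [Polynomial.eval_mul, Polynomial.eval_add, Polynomial.eval_one, Polynomial.eval_pow]
  exact Nat.mul_le_mul_left _ (Nat.pow_le_pow_left (Nat.succ_le_succ (hp n)) c)

end Pool.Agent.H573R2.PSp
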