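import Pool.Agent.H573R2.PSp.Defs2
import Pool.Agent.H578R2.Med.PP
import Pool.Agent.H578R2.Med.PH

/-!
# PSPACE is closed under complement; languages in NP and coNP reduce to the empty set
-/

namespace Pool.Agent.H573R2.PSp

open Pool.Agent.NPC Pool.Agent.H579R2.Spt Pool.Agent.H623R2.PS Pool.Agent.H656R2.AK
  Pool.Agent.NPC.Med

theorem poly_notEvc : NPC.Poly (fun p : QF × List Bool => !evc p.2 p.1.2) := by
  have h : NPC.Poly (fun p : QF × List Bool => !(p.1.2.all fun c => c.any fun l =>
      decide (p.2.getD l.2 false = l.1))) := by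
    fun_prop
  refine h.congr fun p => ?_
  simp only [evc, beq_eq_decide]

theorem compl_inPSPACE {L : Set (List Bool)} (h : InPSPACE L) : InPSPACE Lᶜ := by
  obtain ⟨f, hf, _, hL⟩ := qbf_hard h
  refine inPSPACE_of_evq (init := f) hf (qs := fun x => (f x).1.map not) ?_
    (φ := fun q v => !evc v q.2) poly_notEvc fun x => ?_
  · have h1 : NPC.Poly (fun q : QF => q.1.map not) :=
      NPC.Poly.map (F := fun _ b => !b) (by fun_prop) (by fun_prop)
    exact h1.comp hf
  · rw [Set.mem_compl_iff, hL x, evq_not]
    simp

theorem InNPP.or' {α : Type} [TEnc α] [TDec α] {P Q : α → Prop} (hP : InNPP P) (hQ : InNPP Q) :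
    InNPP (fun a => P a ∨ Q a) := by
  obtain ⟨R, p, h1, h2, h3⟩ := Med.InNPP.cert hP
  obtain ⟨R', p', h1', h2', h3'⟩ := Med.InNPP.cert hQ
  refine of_cert (β := Bool × List Bool)
    (R := fun x => bif x.2.1 then R (x.1, x.2.2) else R' (x.1, x.2.2)) ?_
    (p + p' + Polynomial.C 10) (fun a w hw => ?_) fun a ha => ?_
  · refine NPC.Poly.cond (by fun_prop) ?_ ?_
    · exact h1.comp (f := fun x : α × (Bool × List Bool) => (x.1, x.2.2)) (by fun_prop)
    · exact h1'.comp (f := fun x : α × (Bool × List Bool) => (x.1, x.2.2)) (by fun_prop)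
  · obtain ⟨b, w⟩ := w
    cases b with
    | true => exact Or.inl (h2 _ _ hw)
    | false => exact Or.inr (h2' _ _ hw)
  · rcases ha with ha | ha
    · obtain ⟨w, hw, hR⟩ := h3 _ ha
      refine ⟨(true, w), ?_, hR⟩
      have := sz_bool_le true
      simp only [sz_pair, Polynomial.eval_add, Polynomial.eval_C]
      omega
    · obtain ⟨w, hw, hR⟩ := h3' _ ha
      refine ⟨(false, w), ?_, hR⟩
      have := sz_bool_le false
      simp only [sz_pair, Polynomial.eval_add, Polynomial.eval_C]
      omega

open Classical in
theorem nthr_of_inNP {L : Set (List Bool)} (h : InNP L) (h' : InNP Lᶜ) :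
    NThresholdReduces L ∅ (fun _ => 1) (fun _ => 0) := by
  set r : List Bool → List (ℤ × List (List Bool)) :=
    fun x => if x ∈ L then [(1, [])] else [] with hr
  refine ⟨r, ⟨⟨Polynomial.C ((bits ([(1, [])] : List (ℤ × List (List Bool)))).length +
    (bits ([] : List (ℤ × List (List Bool)))).length), fun x => ?_⟩, ?_⟩, fun x => ?_⟩
  · simp only [hr, Polynomial.eval_C]
    split_ifs <;> omega
  · apply inNP_raw
    have hx : ∀ c : List (ℤ × List (List Bool)), InNPP (fun z : List Bool =>
        decide (z = pairBits (unpair z).1 (bits c)) = true) := by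
      intro c
      refine inNPP_of_test (d := fun z : List Bool => decide (z = pairBits (unpair z).1 (bits c)))
        ?_ fun z => Iff.rfl
      exact NPC.Poly.decide_eq NPC.Poly.id
        (poly_pairBits (NPC.Poly.fst poly_unpair) (NPC.Poly.const _))
    have hL : InNPP (fun z : List Bool => (unpair z).1 ∈ L) :=
      Med.InNPP.comp (f := fun z : List Bool => (unpair z).1) (inNPP_raw h)
        (NPC.Poly.fst poly_unpair)
    have hL' : InNPP (fun z : List Bool => (unpair z).1 ∈ Lᶜ) :=
      Med.InNPP.comp (f := fun z : List Bool => (unpair z).1) (inNPP_raw h')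
        (NPC.Poly.fst poly_unpair)
    have h1 := InNPP.or' (Med.InNPP.and (hx [(1, [])]) hL) (Med.InNPP.and (hx []) hL')
    refine cast (congrArg InNPP ?_) h1
    funext z
    apply propext
    simp only [decide_eq_true_eq, Set.mem_compl_iff]
    constructor
    · rintro (⟨h1, h2⟩ | ⟨h1, h2⟩)
      · refine ⟨(unpair z).1, ?_⟩
        rw [hr]
        simp only [if_pos h2]
        exact h1
      · refine ⟨(unpair z).1, ?_⟩
        rw [hr]
        simp only [if_neg h2]
        exact h1
    · rintro ⟨x, rfl⟩
      rw [unpair_pairBits]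
      by_cases hxL : x ∈ L
      · left
        simp [hr, hxL]
      · right
        simp [hr, hxL]
  · refine ⟨?_, ?_, ?_⟩
    · intro t ht
      simp only [hr] at ht
      split_ifs at ht with hx
      · simp only [List.mem_singleton] at ht
        rw [ht]
        simp
      · simp at ht
    · simp only [hr]
      split_ifs with hx <;> simp [weight]
    · simp only [hr]
      split_ifs with hx <;> simp [value, hx]

end Pool.Agent.H573R2.PSp
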