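import Pool.Agent.H573R2.PSp.Defs

/-!
# Correctness of the forward/backward algorithm (task ALG)
-/

namespace Pool.Agent.H573R2.PSp

open Pool.Agent.NPC Pool.Agent.H579R2.Spt Pool.Agent.H656R2.AK

theorem pickG_eq_ALG {P : ℕ} {l : List Cf} {r v : ℕ} {g : Cf} (hg : g ∈ l)
    (hv : evG P g r = v) (hu : ∀ g' ∈ l, evG P g' r = evG P g r → g' = g) :
    pickG P l r v = g := by
  unfold pickG
  have hm : g ∈ l.filter (fun g => decide (evG P g r = v)) := by
    rw [List.mem_filter]
    exact ⟨hg, by simpa using hv⟩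
  have hall : ∀ g' ∈ l.filter (fun g => decide (evG P g r = v)), g' = g := by
    intro g' hg'
    rw [List.mem_filter] at hg'
    refine hu g' hg'.1 ?_
    have := hg'.2
    simp only [decide_eq_true_eq] at this
    rw [this, hv]
  cases hl : l.filter (fun g => decide (evG P g r = v)) with
  | nil =>
    rw [hl] at hm
    simp at hm
  | cons b t =>
    rw [hl] at hall
    have := hall b (by simp)
    simp [this]

theorem solveG_aux_ALG {P : ℕ} (hP : 2 ≤ P) {m : ℕ} (cand : List Op × List ℕ × ℕ → List Cf)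
    (ops : List Op)
    (hc : ∀ (o : Op) (s : List Op) (a : List ℕ), (o :: s) <:+ ops → a.length = m →
      (∀ x ∈ a, x < P) → o.1 < 3 → ∃ g ∈ cand (s, a, o.2.1),
        (∀ t < P, evG P g t = evN P s (a.set o.2.1 t)) ∧ sepG P (cand (s, a, o.2.1)) < P ∧
        ∀ g' ∈ cand (s, a, o.2.1), evG P g' (sepG P (cand (s, a, o.2.1))) =
          evG P g (sepG P (cand (s, a, o.2.1))) → g' = g) :
    ∀ (s : List Op), s <:+ ops → ∀ (a : List ℕ) (fr : List Frame), a.length = m →
      (∀ x ∈ a, x < P) →
      (((fwd P cand)^[s.length] (s, a, fr)).2.2).foldl (bwd P) (1 % P) =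
        fr.foldl (bwd P) (evN P s a) := by
  intro s
  induction s with
  | nil =>
    intro _ a fr _ _
    simp [evN]
  | cons o s ih =>
    intro hs a fr ha ha'
    have hs' : s <:+ ops := (List.suffix_cons o s).trans hs
    rw [List.length_cons, Function.iterate_succ_apply]
    have h1 : fwd P cand (o :: s, a, fr) = fwd1 P cand o s a fr := by
      simp [fwd]
    rw [h1]
    unfold fwd1
    by_cases ho : o.1 < 3
    · rw [if_pos ho]
      obtain ⟨g, hg, hg1, hg2, hg3⟩ := hc o s a hs ha ha' ho
      rw [ih hs' _ _ (by rw [List.length_set, ha])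
        (by
          intro x hx
          rcases List.mem_or_eq_of_mem_set hx with h | h
          · exact ha' x h
          · rw [h]
            exact hg2)]
      rw [List.foldl_cons]
      congr 1
      unfold bwd
      simp only [if_pos ho]
      rw [pickG_eq_ALG hg (hg1 _ hg2) hg3, hg1 0 (by omega), hg1 1 (by omega)]
      rw [evN, if_pos ho]
    · rw [if_neg ho]
      rw [ih hs' _ _ ha ha', List.foldl_cons]
      congr 1
      unfold bwd
      simp only [if_neg ho]
      rw [evN, if_neg ho]

theorem solveG_correct {P : ℕ} (hP : 2 ≤ P) {m : ℕ} (cand : List Op × List ℕ × ℕ → List Cf)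
    (ops : List Op) (a0 : List ℕ) (ha0 : a0.length = m) (ha0' : ∀ x ∈ a0, x < P)
    (hc : ∀ (o : Op) (s : List Op) (a : List ℕ), (o :: s) <:+ ops → a.length = m →
      (∀ x ∈ a, x < P) → o.1 < 3 → ∃ g ∈ cand (s, a, o.2.1),
        (∀ t < P, evG P g t = evN P s (a.set o.2.1 t)) ∧ sepG P (cand (s, a, o.2.1)) < P ∧
        ∀ g' ∈ cand (s, a, o.2.1), evG P g' (sepG P (cand (s, a, o.2.1))) =
          evG P g (sepG P (cand (s, a, o.2.1))) → g' = g) :
    solveG P cand ops a0 = evN P ops a0 := by
  unfold solveG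
  rw [solveG_aux_ALG hP cand ops hc ops (List.suffix_refl _) a0 [] ha0 ha0']
  rfl

end Pool.Agent.H573R2.PSp
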