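import Pool.Agent.H573R2.PSp.Defs

/-!
# Casts between the values modulo `p` and the values over `ZMod p`
-/

namespace Pool.Agent.H573R2.PSp

open Pool.Agent.NPC Pool.Agent.H579R2.Spt Pool.Agent.H656R2.AK Pool.Agent.H623R2.PS
open Finset

namespace CSTaux

variable {p : ℕ}

/-- The entrywise cast of a list of natural numbers. -/
def cst (p : ℕ) (a : List ℕ) : List (ZMod p) := List.map (fun x : ℕ => (x : ZMod p)) a

theorem getD_map (a : List ℕ) (i : ℕ) :
    (cst p a).getD i 0 = ((a.getD i 0 : ℕ) : ZMod p) := by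
  induction a generalizing i with
  | nil => simp [cst]
  | cons x a ih =>
    cases i with
    | zero => simp [cst]
    | succ i => simpa [cst] using ih i

theorem length_cst (a : List ℕ) : (cst p a).length = a.length := List.length_map _

theorem cst_set (a : List ℕ) (i x : ℕ) : cst p (a.set i x) = (cst p a).set i (x : ZMod p) :=
  List.map_set

theorem nlN_cast (hp : 0 < p) (C : List (Bool × ℕ)) (a : List ℕ) (i : ℕ) :
    ((nlN p C a i : ℕ) : ZMod p) = nlF C (cst p a) i := by
  have h1 : a.getD i 0 % p ≤ p + 1 := by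
    have := Nat.mod_lt (a.getD i 0) hp
    omega
  unfold nlN nlF
  rw [getD_map]
  push_cast
  congr 1
  · split_ifs with h
    · rw [Nat.cast_sub h1, ZMod.natCast_mod]
      push_cast
      simp
    · simp

theorem foldr_lt (hp : 0 < p) (g : ℕ → ℕ) (l : List ℕ) :
    l.foldr (fun i s => (g i * s) % p) (1 % p) < p := by
  cases l with
  | nil => exact Nat.mod_lt _ hp
  | cons x l => exact Nat.mod_lt _ hp

theorem foldr_cast (g : ℕ → ℕ) (l : List ℕ) :
    ((l.foldr (fun i s => (g i * s) % p) (1 % p) : ℕ) : ZMod p) =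
      (l.map (fun i => ((g i : ℕ) : ZMod p))).prod := by
  induction l with
  | nil => simp
  | cons x l ih =>
    rw [List.foldr_cons, List.map_cons, List.prod_cons, ZMod.natCast_mod, Nat.cast_mul, ih]

theorem clN_cast (hp : 0 < p) (C : List (Bool × ℕ)) (a : List ℕ) :
    ((clN p C a : ℕ) : ZMod p) = clF C (cst p a) := by
  have h1 := foldr_lt hp (nlN p C a) (List.range a.length)
  unfold clN clF
  rw [ZMod.natCast_mod, Nat.cast_sub (by omega), foldr_cast, length_cst]
  have h2 : (List.map (fun i => ((nlN p C a i : ℕ) : ZMod p)) (List.range a.length)) =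
      (List.map (fun i => nlF C (cst p a) i) (List.range a.length)) :=
    List.map_congr_left fun i _ => nlN_cast hp C a i
  rw [h2]
  push_cast
  simp

theorem combN_cast (hp : 0 < p) (k x y0 y1 : ℕ) :
    ((combN p k x y0 y1 : ℕ) : ZMod p) = combF k (x : ZMod p) (y0 : ZMod p) (y1 : ZMod p) := by
  have h1 : x % p ≤ p + 1 := by
    have := Nat.mod_lt x hp
    omega
  have h2 : (y0 * y1) % p ≤ p := (Nat.mod_lt _ hp).le
  unfold combN combF
  split_ifs with h h'
  · rw [ZMod.natCast_mod, Nat.cast_mul]
  · rw [ZMod.natCast_mod, Nat.cast_add, Nat.cast_add, Nat.cast_sub h2, ZMod.natCast_mod]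
    push_cast
    simp
    ring
  · rw [ZMod.natCast_mod, Nat.cast_add, Nat.cast_mul, Nat.cast_mul, Nat.cast_sub h1,
      ZMod.natCast_mod]
    push_cast
    simp

theorem combN_lt (hp : 0 < p) (k x y0 y1 : ℕ) : combN p k x y0 y1 < p := by
  unfold combN
  split_ifs with h h'
  · exact Nat.mod_lt _ hp
  · exact Nat.mod_lt _ hp
  · exact Nat.mod_lt _ hp

theorem evN_cast' {p : ℕ} (hp : 0 < p) (ops : List Op) (a : List ℕ) :
    ((evN p ops a : ℕ) : ZMod p) = evF ops (cst p a) := by
  induction ops generalizing a with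
  | nil => simp [evN, evF]
  | cons o s ih =>
    rw [evN, evF]
    split_ifs with h
    · rw [combN_cast hp, ih, ih, getD_map, cst_set, cst_set, Nat.cast_zero, Nat.cast_one]
    · rw [ZMod.natCast_mod, Nat.cast_mul, clN_cast hp, ih]

end CSTaux

/-- A version with the cast written as a `List.map` of natural numbers. -/
theorem evN_cast_map {p : ℕ} (hp : 0 < p) (ops : List Op) (a : List ℕ) :
    ((evN p ops a : ℕ) : ZMod p) = evF ops (List.map (fun x : ℕ => (x : ZMod p)) a) :=
  CSTaux.evN_cast' hp ops a

theorem evN_cast {p : ℕ} (hp : 0 < p) (ops : List Op) (a : List ℕ) :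
    ((evN p ops a : ℕ) : ZMod p) = evF ops (a.map (fun x => (x : ZMod p))) := by
  rw [evN_cast_map hp]
  congr 1
  simp only [List.bind_eq_flatMap, List.pure_def, List.map_id']
  exact List.map_eq_flatMap

theorem evN_lt {p : ℕ} (hp : 0 < p) (ops : List Op) (a : List ℕ) : evN p ops a < p := by
  cases ops with
  | nil => exact Nat.mod_lt _ hp
  | cons o s =>
    rw [evN]
    split_ifs with h
    · exact CSTaux.combN_lt hp _ _ _ _
    · exact Nat.mod_lt _ hp

end Pool.Agent.H573R2.PSp
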