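import Pool.Agent.H573R2.PSp.Defs

/-!
# Different polynomials of degree at most three have nearly orthogonal labels
-/

namespace Pool.Agent.H573R2.PSp

open Pool.Agent.NPC Pool.Agent.H579R2.Spt Pool.Agent.H656R2.AK Finset

/-- the polynomial with coefficients `g` -/
noncomputable def polG (P : ℕ) (g : Cf) : Polynomial (ZMod P) :=
  Polynomial.C (g.1 : ZMod P) + Polynomial.X * (Polynomial.C (g.2.1 : ZMod P) +
    Polynomial.X * (Polynomial.C (g.2.2.1 : ZMod P) +
      Polynomial.X * Polynomial.C (g.2.2.2 : ZMod P)))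

theorem polG_eval (P t : ℕ) (g : Cf) :
    (polG P g).eval ((t : ℕ) : ZMod P) = ((evG P g t : ℕ) : ZMod P) := by
  rw [evG, ZMod.natCast_mod, polG]
  simp

theorem polG_degree (P : ℕ) (g : Cf) : (polG P g).natDegree ≤ 3 := by
  have hX := Polynomial.natDegree_X_le (R := ZMod P)
  have h0 : (Polynomial.X * Polynomial.C (g.2.2.2 : ZMod P)).natDegree ≤ 1 := by
    refine Polynomial.natDegree_mul_le.trans ?_
    simp only [Polynomial.natDegree_C]
    omega
  have h1 : (Polynomial.X * (Polynomial.C (g.2.2.1 : ZMod P) +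
      Polynomial.X * Polynomial.C (g.2.2.2 : ZMod P))).natDegree ≤ 2 := by
    refine Polynomial.natDegree_mul_le.trans ?_
    have : (Polynomial.C (g.2.2.1 : ZMod P) +
      Polynomial.X * Polynomial.C (g.2.2.2 : ZMod P)).natDegree ≤ 1 :=
      (Polynomial.natDegree_add_le _ _).trans (max_le (by simp) h0)
    omega
  have h2 : (Polynomial.X * (Polynomial.C (g.2.1 : ZMod P) +
    Polynomial.X * (Polynomial.C (g.2.2.1 : ZMod P) +
      Polynomial.X * Polynomial.C (g.2.2.2 : ZMod P)))).natDegree ≤ 3 := by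
    refine Polynomial.natDegree_mul_le.trans ?_
    have : (Polynomial.C (g.2.1 : ZMod P) +
      Polynomial.X * (Polynomial.C (g.2.2.1 : ZMod P) +
      Polynomial.X * Polynomial.C (g.2.2.2 : ZMod P))).natDegree ≤ 2 :=
      (Polynomial.natDegree_add_le _ _).trans (max_le (by simp) h1)
    omega
  exact (Polynomial.natDegree_add_le _ _).trans (max_le (by simp) h2)

theorem mem_all4 {P : ℕ} {g : Cf} : g ∈ all4 P ↔
    g.1 < P ∧ g.2.1 < P ∧ g.2.2.1 < P ∧ g.2.2.2 < P := by
  obtain ⟨a, b, c, d⟩ := g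
  simp [all4]

theorem polG_inj {P : ℕ} {g g' : Cf} (hg : g ∈ all4 P) (hg' : g' ∈ all4 P)
    (h : polG P g = polG P g') : g = g' := by
  obtain ⟨a, b, c, d⟩ := g
  obtain ⟨a', b', c', d'⟩ := g'
  rw [mem_all4] at hg hg'
  have key : ∀ x y : ℕ, x < P → y < P → ((x : ℕ) : ZMod P) = ((y : ℕ) : ZMod P) → x = y := by
    intro x y hx hy he
    have h2 := (ZMod.natCast_eq_natCast_iff' x y P).1 he
    rwa [Nat.mod_eq_of_lt hx, Nat.mod_eq_of_lt hy] at h2
  have e0 := congrArg (fun q : Polynomial (ZMod P) => q.coeff 0) h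
  have e1 := congrArg (fun q : Polynomial (ZMod P) => q.coeff 1) h
  have e2 := congrArg (fun q : Polynomial (ZMod P) => q.coeff 2) h
  have e3 := congrArg (fun q : Polynomial (ZMod P) => q.coeff 3) h
  have c1 : ∀ u : Cf, (polG P u).coeff 1 = (u.2.1 : ZMod P) := by
    intro u
    rw [polG, Polynomial.coeff_add, Polynomial.coeff_X_mul (n := 0)]
    simp
  have c2 : ∀ u : Cf, (polG P u).coeff 2 = (u.2.2.1 : ZMod P) := by
    intro u
    rw [polG, Polynomial.coeff_add, Polynomial.coeff_X_mul (n := 1), Polynomial.coeff_add,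
      Polynomial.coeff_X_mul (n := 0)]
    simp
  have c3 : ∀ u : Cf, (polG P u).coeff 3 = (u.2.2.2 : ZMod P) := by
    intro u
    rw [polG, Polynomial.coeff_add, Polynomial.coeff_X_mul (n := 2), Polynomial.coeff_add,
      Polynomial.coeff_X_mul (n := 1), Polynomial.coeff_add, Polynomial.coeff_X_mul (n := 0)]
    simp
  have c0 : ∀ u : Cf, (polG P u).coeff 0 = (u.1 : ZMod P) := by
    intro u
    simp [polG]
  simp only [c0] at e0
  simp only [c1] at e1
  simp only [c2] at e2
  simp only [c3] at e3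
  have f0 := key _ _ hg.1 hg'.1 e0
  have f1 := key _ _ hg.2.1 hg'.2.1 e1
  have f2 := key _ _ hg.2.2.1 hg'.2.2.1 e2
  have f3 := key _ _ hg.2.2.2 hg'.2.2.2 e3
  simp only at f0 f1 f2 f3
  rw [f0, f1, f2, f3]

theorem evG_lt {P : ℕ} (hP : 0 < P) (g : Cf) (t : ℕ) : evG P g t < P := Nat.mod_lt _ hP

theorem collisions4 {P : ℕ} (hP : P.Prime) {g g' : Cf} (hg : g ∈ all4 P) (hg' : g' ∈ all4 P)
    (hne : g ≠ g') : ((range P).filter (fun t => evG P g t = evG P g' t)).card ≤ 3 := by
  have : Fact P.Prime := ⟨hP⟩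
  have h0 : polG P g - polG P g' ≠ 0 := fun h' => hne (polG_inj hg hg' (sub_eq_zero.1 h'))
  have h1 : ((range P).filter (fun t => evG P g t = evG P g' t)).card ≤
      (polG P g - polG P g').roots.toFinset.card := by
    refine Finset.card_le_card_of_injOn (fun α => ((α : ℕ) : ZMod P)) ?_ ?_
    · intro α hα
      rw [Finset.mem_coe, Finset.mem_filter] at hα
      rw [Finset.mem_coe, Multiset.mem_toFinset, Polynomial.mem_roots h0, Polynomial.IsRoot.def,
        Polynomial.eval_sub, polG_eval, polG_eval, hα.2, sub_self]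
    · intro α hα α' hα' he
      rw [Finset.mem_coe, Finset.mem_filter, Finset.mem_range] at hα hα'
      have h2 := (ZMod.natCast_eq_natCast_iff' α α' P).1 he
      rwa [Nat.mod_eq_of_lt hα.1, Nat.mod_eq_of_lt hα'.1] at h2
  refine h1.trans ((Multiset.toFinset_card_le _).trans ((Polynomial.card_roots' _).trans ?_))
  refine (Polynomial.natDegree_sub_le _ _).trans ?_
  exact max_le (polG_degree P g) (polG_degree P g')

theorem labG_orth {P k : ℕ} (hP : P.Prime) (hk : P ≤ 2 ^ k) {g g' : Cf} (hg : g ∈ all4 P)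
    (hg' : g' ∈ all4 P) (hne : g ≠ g') :
    |∑ t ∈ range P ×ˢ range (2 ^ k), sgn (labG P t g) * sgn (labG P t g')| ≤
      ((2 ^ k * 3 : ℕ) : ℤ) := by
  rw [Finset.sum_product]
  have h1 : ∀ α ∈ range P, ∑ β ∈ range (2 ^ k), sgn (labG P (α, β) g) * sgn (labG P (α, β) g') =
      if evG P g α = evG P g' α then ((2 ^ k : ℕ) : ℤ) else 0 := by
    intro α _
    by_cases he : evG P g α = evG P g' α
    · rw [if_pos he]
      simp only [labG, he]
      rw [par_norm]; push_cast; rfl
    · rw [if_neg he]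
      have h2 := par_orth k (evG P g α) (evG P g' α) (lt_of_lt_of_le (evG_lt hP.pos g α) hk)
        (lt_of_lt_of_le (evG_lt hP.pos g' α) hk) he
      simp only [labG]
      exact h2
  rw [Finset.sum_congr rfl h1, ← Finset.sum_filter, Finset.sum_const, nsmul_eq_mul]
  have h2 := collisions4 hP hg hg' hne
  rw [abs_of_nonneg (by positivity)]
  push_cast
  have h3 : (((range P).filter (fun t => evG P g t = evG P g' t)).card : ℤ) ≤ 3 := by
    exact_mod_cast h2
  have h4 : (0 : ℤ) ≤ 2 ^ k := by positivity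
  nlinarith

end Pool.Agent.H573R2.PSp
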